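import Mathlib

/-!
# Lower bound: sums and differences
-/

set_option autoImplicit false

namespace Pool.Agent.TH438.LL

open Finset
open scoped Pointwise

section
variable (f : ℕ → ℕ) (G : ℕ)

/-- the numbers `f i + i` of a window -/
def Uf (a : ℕ) : Finset ℤ := (Ico (a * G) ((a + 1) * G)).image (fun i : ℕ => (f i : ℤ) + i)

/-- the numbers `f i - i` of a window -/
def Vf (a : ℕ) : Finset ℤ := (Ico (a * G) ((a + 1) * G)).image (fun i : ℕ => (f i : ℤ) - i)

lemma card_win (a : ℕ) : (Ico (a * G) ((a + 1) * G)).card = G := by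
  rw [Nat.card_Ico, add_mul, one_mul]
  omega

lemma card_UV (a : ℕ) : G ≤ (Uf f G a).card * (Vf f G a).card := by
  rw [← card_product]
  conv_lhs => rw [← card_win G a]
  apply card_le_card_of_injOn (fun i : ℕ => ((f i : ℤ) + i, (f i : ℤ) - i))
  · intro i hi
    exact mem_coe.2 (mem_product.2 ⟨mem_image_of_mem _ hi, mem_image_of_mem _ hi⟩)
  · intro i _ j _ h
    simp only [Prod.mk.injEq] at h
    omega

lemma card_sub (a : ℕ) : G ≤ (Uf f G a - Vf f G a).card := by
  conv_lhs => rw [← card_win G a]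
  apply card_le_card_of_injOn (fun i : ℕ => (2 * i : ℤ))
  · intro i hi
    refine mem_coe.2 (mem_sub.2 ⟨_, mem_image_of_mem _ hi, _, mem_image_of_mem _ hi, ?_⟩)
    ring
  · intro i _ j _ h
    simp only at h
    omega

lemma U_pos (hG : 1 ≤ G) (a : ℕ) : 0 < (Uf f G a).card := by
  have := card_UV f G a
  rcases Nat.eq_zero_or_pos (Uf f G a).card with h | h
  · rw [h] at this
    omega
  · exact h

lemma V_pos (hG : 1 ≤ G) (a : ℕ) : 0 < (Vf f G a).card := by
  have := card_UV f G a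
  rcases Nat.eq_zero_or_pos (Vf f G a).card with h | h
  · rw [h] at this
    omega
  · exact h

variable (Λ : Finset ℕ)

/-- the lengths near `D * G` -/
def LD (D : ℕ) : Finset ℕ := Λ.filter (fun x => D * G < x + G ∧ x ≤ (D + 3) * G)

variable {f G Λ}

lemma sum_le (hf : ∀ i, f i ≤ G) {N l : ℕ}
    (h : ∀ i j, i < j → j < l → f i + f j + (j - i) ≤ N → f i + f j + (j - i) ∈ Λ)
    (a D : ℕ) (hD : 1 ≤ D) (hl : (a + D + 1) * G ≤ l) (hN : (D + 3) * G ≤ N) :
    (Vf f G a + Uf f G (a + D)).card ≤ (LD G Λ D).card := by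
  have hsub : Vf f G a + Uf f G (a + D) ⊆ (LD G Λ D).image (fun x : ℕ => (x : ℤ)) := by
    intro x hx
    obtain ⟨v, hv, u, hu, rfl⟩ := mem_add.1 hx
    obtain ⟨i, hi, rfl⟩ := mem_image.1 hv
    obtain ⟨j, hj, rfl⟩ := mem_image.1 hu
    rw [mem_Ico] at hi hj
    have h1 := hf i
    have h2 := hf j
    have e1 : (a + 1) * G = a * G + G := by ring
    have e2 : (a + D + 1) * G = a * G + D * G + G := by ring
    have e3 : (a + D) * G = a * G + D * G := by ring
    have e4 : (D + 3) * G = D * G + 3 * G := by ring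
    have e5 : G ≤ D * G := Nat.le_mul_of_pos_left G hD
    rw [e1] at hi
    rw [e2, e3] at hj
    rw [e2] at hl
    rw [e4] at hN
    have hij : i < j := by omega
    have hmem := h i j hij (by omega) (by omega)
    refine mem_image.2 ⟨f i + f j + (j - i), ?_, ?_⟩
    · rw [LD, mem_filter, e4]
      exact ⟨hmem, by omega, by omega⟩
    · push_cast [Nat.cast_sub hij.le]
      ring
  exact (card_le_card hsub).trans card_image_le

lemma triple (hf : ∀ i, f i ≤ G) {N l : ℕ}
    (h : ∀ i j, i < j → j < l → f i + f j + (j - i) ≤ N → f i + f j + (j - i) ∈ Λ)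
    (c D : ℕ) (hD : 1 ≤ D) (hl : (c + 2 * D + 1) * G ≤ l) (hN : (2 * D + 3) * G ≤ N) :
    G * ((Vf f G c).card * (Uf f G (c + 2 * D)).card) ≤
      (LD G Λ D).card * ((LD G Λ (2 * D)).card * (LD G Λ D).card) := by
  have r1 := ruzsa_triangle_inequality_sub_add_sub (Uf f G (c + D)) (Vf f G c) (Vf f G (c + D))
  have r2 := ruzsa_triangle_inequality_sub_add_add (Vf f G c) (Uf f G (c + 2 * D))
    (Vf f G (c + D))
  have s0 := card_sub f G (c + D)
  have s1 := sum_le hf h c D hD (le_trans (Nat.mul_le_mul_right _ (by omega)) hl)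
    (le_trans (Nat.mul_le_mul_right _ (by omega)) hN)
  have s2 := sum_le hf h c (2 * D) (by omega) hl hN
  have s3 := sum_le hf h (c + D) D hD (le_trans (Nat.mul_le_mul_right _ (by omega)) hl)
    (le_trans (Nat.mul_le_mul_right _ (by omega)) hN)
  rw [show c + D + D = c + 2 * D by ring] at s3
  rw [add_comm (Uf f G (c + D)) (Vf f G c)] at r1
  calc G * ((Vf f G c).card * (Uf f G (c + 2 * D)).card)
      ≤ (Uf f G (c + D) - Vf f G (c + D)).card * ((Vf f G c).card * (Uf f G (c + 2 * D)).card) :=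
        Nat.mul_le_mul_right _ s0
    _ = ((Uf f G (c + D) - Vf f G (c + D)).card * (Vf f G c).card) *
        (Uf f G (c + 2 * D)).card := by ring
    _ ≤ ((Vf f G c + Uf f G (c + D)).card * (Vf f G c - Vf f G (c + D)).card) *
        (Uf f G (c + 2 * D)).card := Nat.mul_le_mul_right _ r1
    _ = (Vf f G c + Uf f G (c + D)).card * ((Vf f G c - Vf f G (c + D)).card *
        (Uf f G (c + 2 * D)).card) := by ring
    _ ≤ (Vf f G c + Uf f G (c + D)).card * ((Vf f G c + Uf f G (c + 2 * D)).card *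
        (Vf f G (c + D) + Uf f G (c + 2 * D)).card) := Nat.mul_le_mul_left _ r2
    _ ≤ _ := Nat.mul_le_mul s1 (Nat.mul_le_mul s2 s3)

lemma halving (hG : 1 ≤ G) (D : ℕ) :
    ∃ t ≤ G, G ≤ 2 * ((Vf f G (t * (2 * D))).card * (Uf f G (t * (2 * D) + 2 * D)).card) := by
  by_contra hc
  push Not at hc
  have h1 : ∀ t, t ≤ G + 1 → (Uf f G (t * (2 * D))).card * 2 ^ t ≤ (Uf f G 0).card := by
    intro t
    induction t with
    | zero => intro _; simp
    | succ t ih =>
      intro ht
      have h2 := hc t (by omega)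
      have h3 := card_UV f G (t * (2 * D))
      have h4 : 2 * (Uf f G (t * (2 * D) + 2 * D)).card < (Uf f G (t * (2 * D))).card := by
        have hv := V_pos f G hG (t * (2 * D))
        by_contra h5
        push Not at h5
        have := Nat.mul_le_mul_left (Vf f G (t * (2 * D))).card h5
        nlinarith
      have e : (t + 1) * (2 * D) = t * (2 * D) + 2 * D := by ring
      rw [e, pow_succ]
      have h6 := ih (by omega)
      have h7 : 0 < 2 ^ t := by positivity
      nlinarith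
  have h2 := h1 (G + 1) le_rfl
  have h3 : (Uf f G 0).card ≤ G := by
    refine card_image_le.trans ?_
    rw [card_win]
  have h4 := U_pos f G hG ((G + 1) * (2 * D))
  have h5 : G + 1 < 2 ^ (G + 1) := Nat.lt_two_pow_self
  nlinarith

lemma cube (hf : ∀ i, f i ≤ G) (hG : 1 ≤ G) {N l : ℕ}
    (h : ∀ i j, i < j → j < l → f i + f j + (j - i) ≤ N → f i + f j + (j - i) ∈ Λ)
    (D : ℕ) (hD : 1 ≤ D) (hl : (G * (2 * D) + 2 * D + 1) * G ≤ l) (hN : (2 * D + 3) * G ≤ N) :
    G ^ 2 ≤ 2 * ((LD G Λ D).card + (LD G Λ (2 * D)).card) ^ 3 := by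
  obtain ⟨t, ht, h1⟩ := halving (f := f) hG D
  have h2 := triple hf h (t * (2 * D)) D hD (le_trans (Nat.mul_le_mul_right _ (by
    have := Nat.mul_le_mul_right (2 * D) ht
    omega)) hl) hN
  set x := (LD G Λ D).card
  set y := (LD G Λ (2 * D)).card
  have h3 : G ^ 2 ≤ 2 * (x * (y * x)) := by
    calc G ^ 2 = G * G := sq _
      _ ≤ G * (2 * ((Vf f G (t * (2 * D))).card * (Uf f G (t * (2 * D) + 2 * D)).card)) :=
        Nat.mul_le_mul_left _ h1
      _ = 2 * (G * ((Vf f G (t * (2 * D))).card * (Uf f G (t * (2 * D) + 2 * D)).card)) := by ring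
      _ ≤ _ := Nat.mul_le_mul_left _ h2
  have h4 : x * (y * x) ≤ (x + y) ^ 3 := by
    have e : (x + y) ^ 3 = x * (y * x) + (x ^ 3 + 2 * x ^ 2 * y + 3 * x * y ^ 2 + y ^ 3) := by ring
    omega
  omega

end

/-- the counting bound -/
theorem additive (f : ℕ → ℕ) (G R N l : ℕ) (Λ : Finset ℕ) (hf : ∀ i, f i ≤ G) (hG : 1 ≤ G)
    (h : ∀ i j, i < j → j < l → f i + f j + (j - i) ≤ N → f i + f j + (j - i) ∈ Λ)
    (hl : (G * (2 * (4 * R)) + 2 * (4 * R) + 1) * G ≤ l) (hN : (2 * (4 * R) + 3) * G ≤ N) :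
    (R : ℝ) * ((G : ℝ) ^ 2 / 2) ^ ((1 : ℝ) / 3) ≤ 2 * Λ.card := by
  have h1 : ∀ d ∈ Ico 1 (R + 1), ((G : ℝ) ^ 2 / 2) ^ ((1 : ℝ) / 3) ≤
      ((LD G Λ (4 * d)).card : ℝ) + (LD G Λ (2 * (4 * d))).card := by
    intro d hd
    rw [mem_Ico] at hd
    have h2 := cube hf hG h (4 * d) (by omega)
      (le_trans (Nat.mul_le_mul_right _ (by
        have := Nat.mul_le_mul_left G (show 2 * (4 * d) ≤ 2 * (4 * R) by omega)
        omega)) hl)
      (le_trans (Nat.mul_le_mul_right _ (by omega)) hN)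
    have h3 : (G : ℝ) ^ 2 ≤ 2 * (((LD G Λ (4 * d)).card : ℝ) + (LD G Λ (2 * (4 * d))).card) ^ 3 := by
      exact_mod_cast h2
    set s := ((LD G Λ (4 * d)).card : ℝ) + (LD G Λ (2 * (4 * d))).card
    have hs : 0 ≤ s := by positivity
    calc ((G : ℝ) ^ 2 / 2) ^ ((1 : ℝ) / 3) ≤ (s ^ 3) ^ ((1 : ℝ) / 3) :=
          Real.rpow_le_rpow (by positivity) (by linarith) (by norm_num)
      _ = s := by
          rw [← Real.rpow_natCast, ← Real.rpow_mul hs]
          norm_num
  have hdis : ∀ m, 4 ≤ m → ∑ d ∈ Ico 1 (R + 1), (LD G Λ (m * d)).card ≤ Λ.card := by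
    intro m hm
    rw [← card_biUnion]
    · exact card_le_card (biUnion_subset.2 fun d _ => filter_subset _ _)
    · have key : ∀ d e, d < e → Disjoint (LD G Λ (m * d)) (LD G Λ (m * e)) := by
        intro d e hde
        rw [Finset.disjoint_left]
        intro x hx hy
        simp only [LD, mem_filter] at hx hy
        have h5 : m * d + m ≤ m * e := by
          have := Nat.mul_le_mul_left m (show d + 1 ≤ e from hde)
          rwa [mul_add, mul_one] at this
        have h6 : (m * d + 4) * G ≤ m * e * G := Nat.mul_le_mul_right G (by omega)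
        have e6 : (m * d + 4) * G = (m * d + 3) * G + G := by ring
        omega
      intro d _ e _ hde
      rcases lt_or_gt_of_ne hde with h' | h'
      · exact key d e h'
      · exact (key e d h').symm
  have s1 := hdis 4 le_rfl
  have s2 := hdis 8 (by norm_num)
  have h2 := sum_le_sum h1
  rw [sum_const, Nat.card_Ico, nsmul_eq_mul, sum_add_distrib] at h2
  have e1 : ((R + 1 - 1 : ℕ) : ℝ) = R := by simp
  rw [e1] at h2
  have e2 : ∀ d, 2 * (4 * d) = 8 * d := fun d => by ring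
  simp only [e2] at h2
  have s1' : ∑ d ∈ Ico 1 (R + 1), ((LD G Λ (4 * d)).card : ℝ) ≤ Λ.card := by exact_mod_cast s1
  have s2' : ∑ d ∈ Ico 1 (R + 1), ((LD G Λ (8 * d)).card : ℝ) ≤ Λ.card := by exact_mod_cast s2
  linarith

end Pool.Agent.TH438.LL
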