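import Mathlib

/-!
# Graph of a parent function, lengths of paths by certificates
-/

set_option autoImplicit false

namespace Pool.Agent.TH438.LL

open SimpleGraph

/-- graph of a parent function -/
def pg {V : Type} (par : V → V) : SimpleGraph V where
  Adj v w := v ≠ w ∧ (par v = w ∨ par w = v)
  symm := ⟨fun v w h => ⟨h.1.symm, h.2.symm⟩⟩
  loopless := ⟨fun v h => h.1 rfl⟩

lemma pg_isTree {V : Type} [Finite V] (par : V → V) (rk : V → ℕ) (ρ : V) (hρ : par ρ = ρ)
    (h : ∀ v, v ≠ ρ → rk (par v) < rk v) : (pg par).IsTree := by
  rw [isTree_iff_connected_and_card]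
  constructor
  · have hr : ∀ n, ∀ v, rk v = n → (pg par).Reachable v ρ := by
      intro n
      induction n using Nat.strong_induction_on with
      | _ n ih =>
        intro v hv
        by_cases hvρ : v = ρ
        · subst hvρ
          exact Reachable.refl _
        · have h1 := h v hvρ
          have h2 := ih _ (hv ▸ h1) (par v) rfl
          have h3 : (pg par).Adj v (par v) :=
            ⟨fun e => by rw [← e] at h1; omega, Or.inl rfl⟩
          exact h3.reachable.trans h2
    haveI : Nonempty V := ⟨ρ⟩
    exact ⟨fun v w => (hr _ v rfl).trans (hr _ w rfl).symm⟩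
  · have hadj : ∀ v : {v // v ≠ ρ}, (pg par).Adj v.1 (par v.1) := fun v =>
      ⟨fun e => by have := h v.1 v.2; rw [← e] at this; omega, Or.inl rfl⟩
    let f : {v // v ≠ ρ} → (pg par).edgeSet := fun v => ⟨s(v.1, par v.1), hadj v⟩
    have hf : Function.Bijective f := by
      constructor
      · intro v w hvw
        have h1 : s(v.1, par v.1) = s(w.1, par w.1) := congrArg Subtype.val hvw
        rw [Sym2.eq_iff] at h1
        rcases h1 with ⟨h1, -⟩ | ⟨h1, h2⟩
        · exact Subtype.ext h1
        · exfalso
          have a1 := h v.1 v.2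
          have a2 := h w.1 w.2
          rw [h2] at a1
          rw [← h1] at a2
          omega
      · rintro ⟨e, he⟩
        induction e using Sym2.ind with
        | _ a b =>
          have he' : (pg par).Adj a b := he
          obtain ⟨hne, hab | hab⟩ := he'
          · have ha : a ≠ ρ := by
              rintro rfl
              exact hne (hρ.symm.trans hab)
            exact ⟨⟨a, ha⟩, Subtype.ext (by simp [f, hab])⟩
          · have hb : b ≠ ρ := by
              rintro rfl
              exact hne (hab.symm.trans hρ)
            refine ⟨⟨b, hb⟩, Subtype.ext ?_⟩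
            simp only [f, hab]
            exact Sym2.eq_swap
    rw [← Nat.card_congr (Equiv.ofBijective f hf)]
    classical
    have h2 : Nat.card (Option {v // v ≠ ρ}) = Nat.card V :=
      Nat.card_congr (Equiv.optionSubtypeNe ρ)
    rw [← h2, Finite.card_option]

lemma path_cert {V : Type} (G : SimpleGraph V) (A : V → V → Set ℕ) (lf : V → Prop)
    (h1 : ∀ v w, G.Adj v w → lf w → 1 ∈ A v w)
    (h2 : ∀ v w x, G.Adj v w → G.Adj w x → x ≠ v → ∀ n ∈ A w x, n + 1 ∈ A v w) :
    ∀ {w z : V} (p : G.Walk w z) (v : V) (h : G.Adj v w), (Walk.cons h p).IsPath → lf z →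
      p.length + 1 ∈ A v w := by
  intro w z p
  induction p with
  | nil =>
    intro v h _ hz
    simpa using h1 _ _ h hz
  | @cons a b c hab q ih =>
    intro v h hp hz
    have hp' := (Walk.cons_isPath_iff h (Walk.cons hab q)).1 hp
    have h3 := ih a hab hp'.1 hz
    rw [Walk.length_cons]
    refine h2 v a b h hab ?_ _ h3
    rintro rfl
    apply hp'.2
    simp [Walk.support_cons]

end Pool.Agent.TH438.LL
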