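import Pool.Agent.TH438.LL.A

/-!
# Trees with degrees 1 and 3 from pairs of binary trees
-/

set_option autoImplicit false

namespace Pool.Agent.TH438.LL

open SimpleGraph

/-- full binary trees -/
inductive BT
  | leaf : BT
  | node : BT → BT → BT

/-- distances from the root to the leaves -/
def down : BT → Set ℕ
  | .leaf => {0}
  | .node l r => {n | ∃ m ∈ down l ∪ down r, n = m + 1}

/-- all leaf-to-leaf distances between different leaves lie in `L` -/
def Good (L : Set ℕ) : BT → Prop
  | .leaf => True
  | .node l r => Good L l ∧ Good L r ∧ ∀ a ∈ down l, ∀ b ∈ down r, a + b + 2 ∈ L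

/-- number of levels -/
def ht : BT → ℕ
  | .leaf => 0
  | .node l r => max (ht l) (ht r) + 1

/-- child -/
def ch : BT → Bool → Option BT
  | .leaf, _ => none
  | .node l _, false => some l
  | .node _ r, true => some r

/-- subtree at a word (the last letter of the path is the head of the word) -/
def sub (t : BT) : List Bool → Option BT
  | [] => some t
  | b :: w => (sub t w).bind (fun u => ch u b)

lemma ht_sub (t : BT) : ∀ (w : List Bool) (u : BT), sub t w = some u → ht u + w.length ≤ ht t
  | [], u, h => by
      simp only [sub, Option.some.injEq] at h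
      simp [h]
  | b :: w, u, h => by
      simp only [sub, Option.bind_eq_some_iff] at h
      obtain ⟨x, hx, hu⟩ := h
      have h1 := ht_sub t w x hx
      cases x with
      | leaf => simp [ch] at hu
      | node l r =>
        cases b
        · simp only [ch, Option.some.injEq] at hu
          subst hu
          simp only [ht, List.length_cons] at *
          omega
        · simp only [ch, Option.some.injEq] at hu
          subst hu
          simp only [ht, List.length_cons] at *
          omega

lemma sub_tail {t : BT} {b : Bool} {w : List Bool} (h : (sub t (b :: w)).isSome) :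
    (sub t w).isSome := by
  obtain ⟨u, hu⟩ := Option.isSome_iff_exists.1 h
  simp only [sub, Option.bind_eq_some_iff] at hu
  obtain ⟨x, hx, -⟩ := hu
  simp [hx]

/-- vertices -/
abbrev VV (t : BT) : Type := {w : List Bool // w ≠ [] ∧ (sub t w).isSome}

instance (t : BT) : Finite (VV t) := by
  have h : {w : List Bool | w ≠ [] ∧ (sub t w).isSome}.Finite := by
    refine (List.finite_length_le Bool (ht t)).subset ?_
    rintro w ⟨-, hw⟩
    obtain ⟨u, hu⟩ := Option.isSome_iff_exists.1 hw
    have := ht_sub t w u hu
    simp only [Set.mem_setOf_eq]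
    omega
  exact h.to_subtype

/-- parent on words -/
def parL : List Bool → List Bool
  | [] => []
  | [_] => [false]
  | _ :: d :: w => d :: w

/-- the neighbour which is not a child -/
def pnL : List Bool → List Bool
  | [] => []
  | [b] => [!b]
  | _ :: d :: w => d :: w

lemma adjL (v x : List Bool) (hv : v ≠ []) (hx : x ≠ []) :
    (v ≠ x ∧ (parL v = x ∨ parL x = v)) ↔ (x = pnL v ∨ ∃ c, x = c :: v) := by
  match v, x with
  | [], _ => exact absurd rfl hv
  | _ :: _, [] => exact absurd rfl hx
  | [a], [c] => cases a <;> cases c <;> simp [parL, pnL]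
  | [a], c :: d :: w =>
    simp only [parL, pnL, List.cons.injEq]
    constructor
    · rintro ⟨h1, h2 | h2⟩
      · simp at h2
      · right
        exact ⟨c, rfl, h2⟩
    · rintro (h | ⟨c', h1, h2⟩)
      · simp at h
      · exact ⟨by simp, Or.inr h2⟩
  | a :: b :: v, [c] =>
    simp only [parL, pnL, List.cons.injEq]
    constructor
    · rintro ⟨h1, h2 | h2⟩
      · exact Or.inl ⟨h2.1.symm, h2.2.symm⟩
      · simp at h2
    · rintro (h | ⟨c', h1, h2⟩)
      · refine ⟨by simp, Or.inl ⟨h.1.symm, h.2.symm⟩⟩
      · simp at h2
  | a :: b :: v, c :: d :: w =>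
    simp only [parL, pnL, List.cons.injEq]
    constructor
    · rintro ⟨h1, h2 | h2⟩
      · exact Or.inl ⟨h2.1.symm, h2.2.symm⟩
      · exact Or.inr ⟨c, rfl, h2⟩
    · rintro (h | ⟨c', h1, h2⟩)
      · refine ⟨?_, Or.inl ⟨h.1.symm, h.2.symm⟩⟩
        intro h3
        have := congrArg List.length h3
        have h4 := congrArg List.length h.2
        simp only [List.length_cons] at this h4
        omega
      · refine ⟨?_, Or.inr h2⟩
        intro h3
        have := congrArg List.length h3
        have h4 := congrArg List.length h2.2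
        simp only [List.length_cons] at this h4
        omega

section
variable (s t : BT)

lemma parL_ok {w : List Bool} (h : w ≠ [] ∧ (sub (.node s t) w).isSome) :
    parL w ≠ [] ∧ (sub (.node s t) (parL w)).isSome := by
  match w, h with
  | [], h => exact absurd rfl h.1
  | [b], h => simp [parL, sub, ch]
  | c :: d :: w, h => exact ⟨by simp [parL], sub_tail h.2⟩

lemma pnL_ok {w : List Bool} (h : w ≠ [] ∧ (sub (.node s t) w).isSome) :
    pnL w ≠ [] ∧ (sub (.node s t) (pnL w)).isSome := by
  match w, h with
  | [], h => exact absurd rfl h.1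
  | [b], h => cases b <;> simp [pnL, sub, ch]
  | c :: d :: w, h => exact ⟨by simp [pnL], sub_tail h.2⟩

/-- parent -/
def par (v : VV (.node s t)) : VV (.node s t) := ⟨parL v.1, parL_ok s t v.2⟩

/-- partner -/
def pn (v : VV (.node s t)) : VV (.node s t) := ⟨pnL v.1, pnL_ok s t v.2⟩

/-- rank -/
def rk (v : VV (.node s t)) : ℕ := if v.1 = [false] then 0 else v.1.length

/-- the tree -/
def G : SimpleGraph (VV (.node s t)) := pg (par s t)

lemma G_isTree : (G s t).IsTree := by
  refine pg_isTree (par s t) (rk s t) ⟨[false], by simp [sub, ch]⟩ (Subtype.ext rfl) ?_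
  rintro ⟨w, hw⟩ hne
  match w, hw, hne with
  | [], hw, _ => exact absurd rfl hw.1
  | [false], hw, hne => exact absurd rfl hne
  | [true], hw, hne => simp [par, rk, parL]
  | c :: d :: w, hw, hne =>
    simp only [par, rk, parL]
    split_ifs <;> simp_all

lemma adj_iff (v x : VV (.node s t)) :
    (G s t).Adj v x ↔ x = pn s t v ∨ ∃ c, x.1 = c :: v.1 := by
  have h := adjL v.1 x.1 v.2.1 x.2.1
  rw [show (x = pn s t v ↔ x.1 = pnL v.1) from Subtype.ext_iff]
  rw [← h]
  simp only [G, pg, par, ne_eq, Subtype.ext_iff]

/-- the leaves -/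
def lf (v : VV (.node s t)) : Prop := sub (.node s t) v.1 = some .leaf

lemma no_child {v : VV (.node s t)} (h : lf s t v) (c : Bool) (x : VV (.node s t)) :
    x.1 ≠ c :: v.1 := by
  intro hx
  have h1 := x.2.2
  rw [hx] at h1
  unfold lf at h
  simp [sub, h, ch] at h1

lemma nbr_leaf {v : VV (.node s t)} (h : lf s t v) :
    (G s t).neighborSet v = {pn s t v} := by
  ext x
  simp only [mem_neighborSet, adj_iff, Set.mem_singleton_iff]
  constructor
  · rintro (h1 | ⟨c, h1⟩)
    · exact h1
    · exact absurd h1 (no_child s t h c x)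
  · exact Or.inl

lemma pn_ne_child (v : VV (.node s t)) (c : Bool) (x : VV (.node s t)) (hx : x.1 = c :: v.1) :
    pn s t v ≠ x := by
  intro h
  have h1 := congrArg Subtype.val h
  rw [hx] at h1
  simp only [pn] at h1
  have h2 := congrArg List.length h1
  obtain ⟨v, hv⟩ := v
  match v, hv with
  | [], hv => exact absurd rfl hv.1
  | [b], hv => simp [pnL] at h2
  | a :: b :: v, hv =>
    simp only [pnL, List.length_cons] at h2
    omega

lemma nbr_node {v : VV (.node s t)} (h : ¬ lf s t v) :
    ((G s t).neighborSet v).ncard = 3 := by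
  obtain ⟨u, hu⟩ := Option.isSome_iff_exists.1 v.2.2
  cases u with
  | leaf => exact absurd hu h
  | node l r =>
    let x : VV (.node s t) := ⟨false :: v.1, by simp, by simp [sub, hu, ch]⟩
    let y : VV (.node s t) := ⟨true :: v.1, by simp, by simp [sub, hu, ch]⟩
    have h1 : (G s t).neighborSet v = {pn s t v, x, y} := by
      ext z
      simp only [mem_neighborSet, adj_iff, Set.mem_insert_iff, Set.mem_singleton_iff]
      constructor
      · rintro (h1 | ⟨c, h1⟩)
        · exact Or.inl h1
        · cases c
          · exact Or.inr (Or.inl (Subtype.ext h1))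
          · exact Or.inr (Or.inr (Subtype.ext h1))
      · rintro (h1 | h1 | h1)
        · exact Or.inl h1
        · exact Or.inr ⟨false, by rw [h1]⟩
        · exact Or.inr ⟨true, by rw [h1]⟩
    rw [h1]
    rw [Set.ncard_eq_three]
    refine ⟨_, _, _, pn_ne_child s t v false x rfl, pn_ne_child s t v true y rfl, ?_, rfl⟩
    intro h2
    have := congrArg Subtype.val h2
    simp [x, y] at this

lemma deg (v : VV (.node s t)) :
    ((G s t).neighborSet v).ncard = 1 ∨ ((G s t).neighborSet v).ncard = 3 := by
  by_cases h : lf s t v
  · left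
    rw [nbr_leaf s t h, Set.ncard_singleton]
  · exact Or.inr (nbr_node s t h)

lemma lf_of_deg {v : VV (.node s t)} (h : ((G s t).neighborSet v).ncard = 1) : lf s t v := by
  by_contra h1
  rw [nbr_node s t h1] at h
  omega

end

end Pool.Agent.TH438.LL
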