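import Pool.Agent.TH438.LL.B

/-!
# Leaf-to-leaf lengths of the trees
-/

set_option autoImplicit false

namespace Pool.Agent.TH438.LL

open SimpleGraph

section
variable (s t : BT)

/-- leaf distances below a word -/
def dn (w : List Bool) : Set ℕ := {n | ∃ u, sub (.node s t) w = some u ∧ n ∈ down u}

/-- leaf distances above a word -/
def up : List Bool → Set ℕ
  | [] => ∅
  | [b] => {n | ∃ m ∈ dn s t [!b], n = m + 1}
  | c :: d :: w =>
    {n | ∃ m ∈ up (d :: w) ∪ {k | ∃ j ∈ dn s t ((!c) :: d :: w), k = j + 1}, n = m + 1}

lemma dn_child {c : Bool} {w : List Bool} {m : ℕ} (h : m ∈ dn s t (c :: w)) :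
    m + 1 ∈ dn s t w := by
  obtain ⟨u, hu, hm⟩ := h
  simp only [sub, Option.bind_eq_some_iff] at hu
  obtain ⟨x, hx, hu⟩ := hu
  refine ⟨x, hx, ?_⟩
  cases x with
  | leaf => simp [ch] at hu
  | node l r =>
    cases c
    · simp only [ch, Option.some.injEq] at hu
      subst hu
      exact ⟨m, Or.inl hm, rfl⟩
    · simp only [ch, Option.some.injEq] at hu
      subst hu
      exact ⟨m, Or.inr hm, rfl⟩

/-- the certificate -/
def AA (v x : VV (.node s t)) : Set ℕ :=
  {n | (v.1.length < x.1.length ∧ ∃ m ∈ dn s t x.1, n = m + 1) ∨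
    (x.1.length ≤ v.1.length ∧ n ∈ up s t v.1)}

lemma zero_dn {v : VV (.node s t)} (h : lf s t v) : 0 ∈ dn s t v.1 := ⟨_, h, rfl⟩

lemma pn_len (v : VV (.node s t)) : (pn s t v).1.length ≤ v.1.length := by
  obtain ⟨v, hv⟩ := v
  match v, hv with
  | [], hv => exact absurd rfl hv.1
  | [b], hv => simp [pn, pnL]
  | a :: b :: v, hv => simp [pn, pnL]

lemma cert1 (v w : VV (.node s t)) (h : (G s t).Adj v w) (hw : lf s t w) : 1 ∈ AA s t v w := by
  rw [adj_iff] at h
  rcases h with h | ⟨c, h⟩
  · right
    refine ⟨h ▸ pn_len s t v, ?_⟩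
    obtain ⟨v, hv⟩ := v
    match v, hv, h with
    | [], hv, _ => exact absurd rfl hv.1
    | [b], hv, h =>
      refine ⟨0, ?_, rfl⟩
      have h2 : w.1 = [!b] := by rw [h]; rfl
      rw [← h2]
      exact zero_dn s t hw
    | a :: b :: v, hv, h =>
      exfalso
      have h2 : w.1 = b :: v := by rw [h]; rfl
      refine no_child s t hw a ⟨a :: b :: v, hv⟩ ?_
      rw [h2]
  · left
    refine ⟨by rw [h]; simp, 0, zero_dn s t hw, rfl⟩

lemma cert2 (v w x : VV (.node s t)) (h : (G s t).Adj v w) (h' : (G s t).Adj w x) (hx : x ≠ v)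
    (n : ℕ) (hn : n ∈ AA s t w x) : n + 1 ∈ AA s t v w := by
  rw [adj_iff] at h h'
  rcases h with h | ⟨c, h⟩
  · right
    refine ⟨h ▸ pn_len s t v, ?_⟩
    obtain ⟨v, hv⟩ := v
    match v, hv, h, hx with
    | [], hv, _, _ => exact absurd rfl hv.1
    | [b], hv, h, hx =>
      have h2 : w.1 = [!b] := by rw [h]; rfl
      rcases h' with h' | ⟨d, h'⟩
      · exfalso
        apply hx
        apply Subtype.ext
        rw [h']
        simp [pn, h2, pnL]
      · rcases hn with ⟨h3, m, hm, rfl⟩ | ⟨h3, -⟩
        · refine ⟨m + 1, ?_, rfl⟩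
          rw [← h2]
          rw [h'] at hm
          exact dn_child s t hm
        · rw [h', List.length_cons] at h3
          omega
    | a :: b :: v, hv, h, hx =>
      have h2 : w.1 = b :: v := by rw [h]; rfl
      rcases h' with h' | ⟨d, h'⟩
      · rcases hn with ⟨h3, -⟩ | ⟨-, h3⟩
        · exfalso
          have := pn_len s t w
          rw [← h'] at this
          omega
        · rw [h2] at h3
          exact ⟨n, Or.inl h3, rfl⟩
      · rcases hn with ⟨h3, m, hm, rfl⟩ | ⟨h3, -⟩
        · refine ⟨m + 1, Or.inr ⟨m, ?_, rfl⟩, rfl⟩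
          rw [h', h2] at hm
          have : d = !a := by
            by_contra hd
            apply hx
            apply Subtype.ext
            rw [h', h2]
            cases a <;> cases d <;> simp_all
          rw [← this]
          exact hm
        · rw [h', List.length_cons] at h3
          omega
  · left
    refine ⟨by rw [h]; simp, ?_⟩
    rcases h' with h' | ⟨d, h'⟩
    · exfalso
      apply hx
      apply Subtype.ext
      rw [h']
      simp only [pn, h]
      obtain ⟨v, hv⟩ := v
      match v, hv with
      | [], hv => exact absurd rfl hv.1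
      | a :: v, hv => simp [pnL]
    · rcases hn with ⟨h3, m, hm, rfl⟩ | ⟨h3, -⟩
      · refine ⟨m + 1, ?_, rfl⟩
        rw [h'] at hm
        exact dn_child s t hm
      · rw [h', List.length_cons] at h3
        omega

lemma len_up {u z : VV (.node s t)} (hu : lf s t u) (hz : lf s t z) (p : (G s t).Walk u z)
    (hp : p.IsPath) : p.length = 0 ∨ p.length ∈ up s t u.1 := by
  cases p with
  | nil => left; rfl
  | @cons _ w _ h q =>
    right
    have h1 := path_cert (G s t) (AA s t) (lf s t) (cert1 s t) (cert2 s t) q u h hp hz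
    rw [Walk.length_cons]
    rw [adj_iff] at h
    rcases h with h | ⟨c, h⟩
    · rcases h1 with ⟨h3, -⟩ | ⟨-, h3⟩
      · have := pn_len s t u
        rw [← h] at this
        omega
      · exact h3
    · exact absurd h (no_child s t hu c w)

variable {s t} {L : Set ℕ}

lemma good_sub (hs : Good L s) (ht' : Good L t) :
    ∀ (w : List Bool) (u : BT), w ≠ [] → sub (.node s t) w = some u → Good L u
  | [], _, h, _ => absurd rfl h
  | [false], u, _, h => by
      simp only [sub, ch, Option.bind_some, Option.some.injEq] at h
      rw [← h]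
      exact hs
  | [true], u, _, h => by
      simp only [sub, ch, Option.bind_some, Option.some.injEq] at h
      rw [← h]
      exact ht'
  | c :: d :: w, u, _, h => by
      rw [sub, Option.bind_eq_some_iff] at h
      obtain ⟨x, hx, hu⟩ := h
      have h1 := good_sub hs ht' (d :: w) x (by simp) hx
      cases x with
      | leaf => simp [ch] at hu
      | node l r =>
        cases c
        · simp only [ch, Option.some.injEq] at hu
          rw [← hu]
          exact h1.1
        · simp only [ch, Option.some.injEq] at hu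
          rw [← hu]
          exact h1.2.1

lemma up_mem (hs : Good L s) (ht' : Good L t) (hst : ∀ a ∈ down s, ∀ b ∈ down t, a + b + 1 ∈ L) :
    ∀ (w : List Bool), w ≠ [] → ∀ a ∈ dn s t w, ∀ x ∈ up s t w, a + x ∈ L
  | [], h => absurd rfl h
  | [false], _ => by
      rintro a ⟨u, hu, ha⟩ x ⟨m, ⟨u', hu', hm⟩, rfl⟩
      simp only [sub, ch, Option.bind_some, Option.some.injEq, Bool.not_false] at hu hu'
      subst hu hu'
      have := hst a ha m hm
      rwa [add_assoc] at this
  | [true], _ => by
      rintro a ⟨u, hu, ha⟩ x ⟨m, ⟨u', hu', hm⟩, rfl⟩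
      simp only [sub, ch, Option.bind_some, Option.some.injEq, Bool.not_true] at hu hu'
      subst hu hu'
      have := hst m hm a ha
      have e : a + (m + 1) = m + a + 1 := by ring
      rwa [e]
  | c :: d :: w, _ => by
      rintro a ha x ⟨m, hm | ⟨j, hj, rfl⟩, rfl⟩
      · have h1 := dn_child s t ha
        have h2 := up_mem hs ht' hst (d :: w) (by simp) _ h1 m hm
        have e : a + (m + 1) = a + 1 + m := by ring
        rwa [e]
      · obtain ⟨u, hu, ha⟩ := ha
        obtain ⟨u', hu', hj⟩ := hj
        rw [sub, Option.bind_eq_some_iff] at hu hu'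
        obtain ⟨x, hx, hu⟩ := hu
        obtain ⟨x', hx', hu'⟩ := hu'
        rw [hx, Option.some.injEq] at hx'
        subst hx'
        have h1 := good_sub hs ht' (d :: w) x (by simp) hx
        cases x with
        | leaf => simp [ch] at hu
        | node l r =>
          cases c
          · simp only [ch, Option.some.injEq, Bool.not_false] at hu hu'
            subst hu hu'
            have := h1.2.2 a ha j hj
            have e : a + (j + 1 + 1) = a + j + 2 := by ring
            rwa [e]
          · simp only [ch, Option.some.injEq, Bool.not_true] at hu hu'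
            subst hu hu'
            have := h1.2.2 j hj a ha
            have e : a + (j + 1 + 1) = j + a + 2 := by ring
            rwa [e]

lemma lens (hs : Good L s) (ht' : Good L t) (hst : ∀ a ∈ down s, ∀ b ∈ down t, a + b + 1 ∈ L)
    {u z : VV (.node s t)} (hu : lf s t u) (hz : lf s t z) (p : (G s t).Walk u z)
    (hp : p.IsPath) : p.length = 0 ∨ p.length ∈ L := by
  rcases len_up s t hu hz p hp with h | h
  · exact Or.inl h
  · right
    have := up_mem hs ht' hst u.1 u.2.1 0 (zero_dn s t hu) _ h
    rwa [zero_add] at this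

end

lemma sub_append (t : BT) (b : Bool) : ∀ w : List Bool,
    sub t (w ++ [b]) = (ch t b).bind (fun u => sub u w)
  | [] => by
      simp only [List.nil_append, sub, Option.bind_some]
      cases ch t b <;> rfl
  | c :: w => by
      rw [List.cons_append, sub, sub_append t b w]
      cases h : ch t b with
      | none => simp
      | some u => simp [sub]

lemma words (t : BT) : ∀ k, k ≤ ht t → ∃ w : List Bool, w.length = k ∧ (sub t w).isSome := by
  induction t with
  | leaf =>
    intro k hk
    simp only [ht, nonpos_iff_eq_zero] at hk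
    exact ⟨[], by simp [hk], by simp [sub]⟩
  | node l r ihl ihr =>
    intro k hk
    cases k with
    | zero => exact ⟨[], rfl, by simp [sub]⟩
    | succ k =>
      simp only [ht] at hk
      rcases le_total (ht l) (ht r) with h | h
      · obtain ⟨w, hw, hs⟩ := ihr k (by omega)
        exact ⟨w ++ [true], by simp [hw], by simpa [sub_append, ch] using hs⟩
      · obtain ⟨w, hw, hs⟩ := ihl k (by omega)
        exact ⟨w ++ [false], by simp [hw], by simpa [sub_append, ch] using hs⟩

lemma card_ge (t : BT) : ht t ≤ Nat.card (VV t) := by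
  classical
  choose! f hf using words t
  let g : Fin (ht t) → VV t := fun i => ⟨f (i.1 + 1), by
    have h := hf (i.1 + 1) (by omega)
    refine ⟨?_, h.2⟩
    intro h0
    rw [h0] at h
    simp at h⟩
  have hg : Function.Injective g := by
    intro i j hij
    have h1 := hf (i.1 + 1) (by omega)
    have h2 := hf (j.1 + 1) (by omega)
    have h3 : f (i.1 + 1) = f (j.1 + 1) := congrArg Subtype.val hij
    rw [h3] at h1
    apply Fin.ext
    omega
  have := Nat.card_le_card_of_injective g hg
  simpa using this

/-- transport to `Fin n` -/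
theorem exists_tree (s t : BT) (L : Set ℕ) (hs : Good L s) (ht' : Good L t)
    (hst : ∀ a ∈ down s, ∀ b ∈ down t, a + b + 1 ∈ L) :
    ∃ (n : ℕ) (T : SimpleGraph (Fin n)), ht (.node s t) ≤ n ∧ T.IsTree ∧
      (∀ v, (T.neighborSet v).ncard = 1 ∨ (T.neighborSet v).ncard = 3) ∧
      (∀ u v, (T.neighborSet u).ncard = 1 → (T.neighborSet v).ncard = 1 →
        ∀ p : T.Walk u v, p.IsPath → p.length = 0 ∨ p.length ∈ L) := by
  let e := Finite.equivFin (VV (.node s t))
  let T := (G s t).comap e.symm
  let φ : T ≃g G s t := Iso.comap e.symm (G s t)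
  have hn : ∀ v, (T.neighborSet v).ncard = ((G s t).neighborSet (φ v)).ncard := by
    intro v
    exact Nat.card_congr (φ.mapNeighborSet v)
  refine ⟨_, T, card_ge _, (Iso.isTree_iff φ).2 (G_isTree s t), ?_, ?_⟩
  · intro v
    rw [hn]
    exact deg s t _
  · intro u v hu hv p hp
    rw [hn] at hu hv
    have h1 := lens hs ht' hst (lf_of_deg s t hu) (lf_of_deg s t hv) (p.map φ.toHom)
      (Walk.map_isPath_of_injective φ.injective hp)
    rwa [Walk.length_map] at h1

/-- a graph with all degrees 1 or 3 has an even number of vertices -/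
lemma even_card {n : ℕ} (T : SimpleGraph (Fin n))
    (h : ∀ v, (T.neighborSet v).ncard = 1 ∨ (T.neighborSet v).ncard = 3) : Even n := by
  classical
  have h1 := T.even_card_odd_degree_vertices
  have h2 : (Finset.univ.filter (fun v => Odd (T.degree v))) = Finset.univ := by
    rw [Finset.filter_true_of_mem]
    intro v _
    have h3 : T.degree v = (T.neighborSet v).ncard := by
      rw [← card_neighborSet_eq_degree, ← Nat.card_eq_fintype_card]
      rfl
    rw [h3]
    rcases h v with h | h <;> rw [h] <;> decide
  rw [h2] at h1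
  simpa using h1

end Pool.Agent.TH438.LL
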