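import Pool.Agent.TH438.LL.C

/-!
# Trees from sets with full difference set and small sumset
-/

set_option autoImplicit false

namespace Pool.Agent.TH438.LL

open SimpleGraph Finset
open scoped Pointwise

/-- complete binary tree -/
def CT : ℕ → BT
  | 0 => .leaf
  | h + 1 => .node (CT h) (CT h)

lemma down_CT : ∀ h, down (CT h) = {h}
  | 0 => rfl
  | h + 1 => by
      ext n
      simp only [CT, down, down_CT h, Set.union_self, Set.mem_singleton_iff, exists_eq_left]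
      rfl

/-- spine with complete binary trees -/
def Sp (f : ℕ → ℕ) : ℕ → ℕ → BT
  | 0, j => CT (f j)
  | k + 1, j => .node (CT (f j - 1)) (Sp f k (j + 1))

lemma down_Sp (f : ℕ → ℕ) (hf : ∀ i, 1 ≤ f i) : ∀ k j n, n ∈ down (Sp f k j) →
    ∃ i, j ≤ i ∧ n = f i + (i - j)
  | 0, j, n, h => by
      simp only [Sp, down_CT, Set.mem_singleton_iff] at h
      exact ⟨j, le_rfl, by omega⟩
  | k + 1, j, n, h => by
      obtain ⟨m, hm | hm, rfl⟩ := h
      · rw [down_CT] at hm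
        have h1 : m = f j - 1 := hm
        have := hf j
        exact ⟨j, le_rfl, by omega⟩
      · obtain ⟨i, hi, rfl⟩ := down_Sp f hf k (j + 1) m hm
        exact ⟨i, by omega, by omega⟩

lemma ht_Sp (f : ℕ → ℕ) : ∀ k j, k ≤ ht (Sp f k j)
  | 0, j => Nat.zero_le _
  | k + 1, j => by
      have := ht_Sp f k (j + 1)
      simp only [Sp, ht]
      omega

/-- allowed lengths -/
def LL (M : ℕ) (U : Finset ℤ) : Set ℕ :=
  {n | ∃ j ≤ M, n = 2 * j} ∪ {n | ∃ x ∈ U + U, (n : ℤ) ≡ x [ZMOD M]}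

lemma good_CT (M : ℕ) (U : Finset ℤ) : ∀ h, h ≤ M → Good (LL M U) (CT h)
  | 0, _ => trivial
  | h + 1, hh => by
      refine ⟨good_CT M U h (by omega), good_CT M U h (by omega), ?_⟩
      rw [down_CT]
      rintro a ha b hb
      have ha' : a = h := ha
      have hb' : b = h := hb
      exact Or.inl ⟨h + 1, hh, by omega⟩

section
variable (M : ℕ) (U : Finset ℤ) (f : ℕ → ℕ) (hf : ∀ i, 1 ≤ f i) (hM : ∀ i, f i ≤ M)
  (hu : ∀ i : ℕ, ∃ u ∈ U, (f i : ℤ) + i ≡ u [ZMOD M])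
  (hv : ∀ i : ℕ, ∃ v ∈ U, (f i : ℤ) - i ≡ v [ZMOD M])

include hu hv in
lemma cross (i j : ℕ) (hij : j ≤ i) : f j + f i + (i - j) ∈ LL M U := by
  obtain ⟨u, hu1, hu2⟩ := hu i
  obtain ⟨v, hv1, hv2⟩ := hv j
  right
  refine ⟨u + v, add_mem_add hu1 hv1, ?_⟩
  have h := hu2.add hv2
  have e : ((f j + f i + (i - j) : ℕ) : ℤ) = f i + i + (f j - j) := by
    push_cast [Nat.cast_sub hij]
    ring
  rw [e]
  exact h

include hf hM hu hv in
lemma good_Sp : ∀ k j, Good (LL M U) (Sp f k j)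
  | 0, j => good_CT M U _ (hM j)
  | k + 1, j => by
      refine ⟨good_CT M U _ ((Nat.sub_le _ _).trans (hM j)), good_Sp k (j + 1), ?_⟩
      rw [down_CT]
      rintro a rfl b hb
      obtain ⟨i, hi, rfl⟩ := down_Sp f hf k (j + 1) b hb
      have h1 := cross M U f hu hv i j (by omega)
      have h2 := hf j
      have e : f j - 1 + (f i + (i - (j + 1))) + 2 = f j + f i + (i - j) := by omega
      rwa [e]

include hf hM hu hv in
lemma tree_f (k : ℕ) : ∃ (n : ℕ) (T : SimpleGraph (Fin n)), k ≤ n ∧ T.IsTree ∧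
      (∀ v, (T.neighborSet v).ncard = 1 ∨ (T.neighborSet v).ncard = 3) ∧
      (∀ u v, (T.neighborSet u).ncard = 1 → (T.neighborSet v).ncard = 1 →
        ∀ p : T.Walk u v, p.IsPath → p.length = 0 ∨ p.length ∈ LL M U) := by
  obtain ⟨n, T, h1, h2, h3, h4⟩ := exists_tree (CT (f 0 - 1)) (Sp f k 0) (LL M U)
    (good_CT M U _ ((Nat.sub_le _ _).trans (hM 0))) (good_Sp M U f hf hM hu hv k 0) (by
      rw [down_CT]
      rintro a rfl b hb
      obtain ⟨i, hi, rfl⟩ := down_Sp f hf k 0 b hb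
      have h1 := cross M U f hu hv i 0 (by omega)
      have h2 := hf 0
      have e : f 0 - 1 + (f i + (i - 0)) + 1 = f 0 + f i + (i - 0) := by omega
      rwa [e])
  refine ⟨n, T, ?_, h2, h3, h4⟩
  have := ht_Sp f k 0
  simp only [ht] at h1
  omega

end

/-- every residue class is a difference -/
def Cov (M : ℕ) (U : Finset ℤ) : Prop := ∀ c : ℤ, ∃ u ∈ U, ∃ v ∈ U, u - v ≡ c [ZMOD M]

theorem tree_U (M : ℕ) (hM : 0 < M) (U : Finset ℤ) (hU : Cov M U) (k : ℕ) :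
    ∃ (n : ℕ) (T : SimpleGraph (Fin n)), k ≤ n ∧ T.IsTree ∧
      (∀ v, (T.neighborSet v).ncard = 1 ∨ (T.neighborSet v).ncard = 3) ∧
      (∀ u v, (T.neighborSet u).ncard = 1 → (T.neighborSet v).ncard = 1 →
        ∀ p : T.Walk u v, p.IsPath → p.length = 0 ∨ p.length ∈ LL M U) := by
  choose u hu v hv huv using fun i : ℕ => hU (2 * i)
  have hM' : (0 : ℤ) < M := by exact_mod_cast hM
  let f : ℕ → ℕ := fun i => ((u i - i - 1) % M).toNat + 1
  have h0 : ∀ i, ((f i : ℕ) : ℤ) = (u i - i - 1) % M + 1 := by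
    intro i
    simp only [f]
    push_cast
    rw [Int.toNat_of_nonneg (Int.emod_nonneg _ hM'.ne')]
  have h1 : ∀ i, ((f i : ℕ) : ℤ) ≡ u i - i [ZMOD M] := by
    intro i
    rw [h0]
    have : (u i - i - 1) % M ≡ u i - i - 1 [ZMOD M] := Int.mod_modEq _ _
    have h2 := this.add_right 1
    rwa [sub_add_cancel] at h2
  refine tree_f M U f (fun i => by simp [f]) ?_ ?_ ?_ k
  · intro i
    have h2 := Int.emod_lt_of_pos (u i - i - 1) hM'
    have h3 := h0 i
    omega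
  · intro i
    refine ⟨u i, hu i, ?_⟩
    have := (h1 i).add_right (i : ℤ)
    rwa [sub_add_cancel] at this
  · intro i
    refine ⟨v i, hv i, ?_⟩
    have h2 := (h1 i).sub_right (i : ℤ)
    refine h2.trans ?_
    have h3 := (huv i).sub_right (2 * (i : ℤ))
    have h4 := (huv i).symm
    have h5 : u i - i - i ≡ u i - (u i - v i) [ZMOD M] := by
      have := Int.ModEq.sub_left (u i) h4
      have e : u i - i - i = u i - 2 * (i : ℤ) := by ring
      rwa [e]
    have e : u i - (u i - v i) = v i := by ring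
    rwa [e] at h5

lemma count (M : ℕ) (hM : 0 < M) (U : Finset ℤ) (N : ℕ) :
    ({n : ℕ | n ≤ N ∧ (n = 0 ∨ n ∈ LL M U)}).ncard ≤
      1 + (M + 1) + (N / M + 1) * (U + U).card := by
  classical
  let S : Finset ℕ := {0} ∪ (range (M + 1)).image (fun j => 2 * j) ∪
    ((range (N / M + 1)) ×ˢ (U + U)).image (fun z : ℕ × ℤ => z.1 * M + (z.2 % (M : ℤ)).toNat)
  have hS : {n : ℕ | n ≤ N ∧ (n = 0 ∨ n ∈ LL M U)} ⊆ (S : Set ℕ) := by
    rintro n ⟨hn, rfl | ⟨j, hj, rfl⟩ | ⟨x, hx, hnx⟩⟩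
    · simp [S]
    · simp only [S, coe_union, Set.mem_union, mem_coe, mem_image, mem_range]
      left; right
      exact ⟨j, by omega, rfl⟩
    · simp only [S, coe_union, Set.mem_union, mem_coe, mem_image, mem_product, mem_range]
      right
      refine ⟨(n / M, x), ⟨?_, hx⟩, ?_⟩
      · have := Nat.div_le_div_right (c := M) hn
        simp only
        omega
      · simp only
        have h1 : (n : ℤ) % M = x % M := hnx
        rw [← h1]
        have h2 : ((n : ℤ) % M).toNat = n % M := by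
          rw [← Int.natCast_mod, Int.toNat_natCast]
        rw [h2]
        exact Nat.div_add_mod' n M
  calc _ ≤ (S : Set ℕ).ncard := Set.ncard_le_ncard hS S.finite_toSet
    _ = S.card := Set.ncard_coe_finset S
    _ ≤ _ := by
      refine (card_union_le _ _).trans ?_
      refine add_le_add ((card_union_le _ _).trans (add_le_add (by simp) ?_)) ?_
      · exact card_image_le.trans (by simp)
      · exact card_image_le.trans (by simp)

/-- arbitrarily large moduli with full difference set and sumset of size at most `M ^ x` -/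
def Fam (x : ℝ) : Prop := ∀ M0 : ℕ, ∃ M, M0 ≤ M ∧ 0 < M ∧ ∃ U : Finset ℤ, Cov M U ∧
  ((U + U).card : ℝ) ≤ (M : ℝ) ^ x

/-- property P(c) -/
def PP (c : ℝ) : Prop := ∃ κ : ℝ, 0 < κ ∧ ∀ N : ℕ, 1 ≤ N → ∃ n0 : ℕ, ∀ n, n0 ≤ n → Even n →
  ∀ T : SimpleGraph (Fin n), T.IsTree →
    (∀ v, (T.neighborSet v).ncard = 1 ∨ (T.neighborSet v).ncard = 3) →
    κ * (N : ℝ) ^ c ≤ (({l : ℕ | l ≤ N ∧ ∃ u v, (T.neighborSet u).ncard = 1 ∧
      (T.neighborSet v).ncard = 1 ∧ ∃ p : T.Walk u v, p.IsPath ∧ p.length = l}).ncard : ℝ)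

theorem main {x c : ℝ} (hx0 : 0 ≤ x) (hx1 : x < 1) (hF : Fam x) (hc : 1 / (2 - x) < c) :
    ¬ PP c := by
  rintro ⟨κ, hκ, hP⟩
  have hc0 : 0 < c := lt_trans (by apply div_pos <;> linarith) hc
  have hδ : 0 < (2 - x) * c - 1 := by
    rw [div_lt_iff₀ (by linarith)] at hc
    linarith
  have hev := (tendsto_rpow_atTop hδ).eventually (Filter.eventually_gt_atTop (7 / κ))
  obtain ⟨B, hB⟩ := Filter.eventually_atTop.1 hev
  obtain ⟨M, hM0, hMpos, U, hU, hcard⟩ := hF (⌈B⌉₊)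
  have hMB : B ≤ (M : ℝ) := (Nat.le_ceil B).trans (by exact_mod_cast hM0)
  have hMr : (1 : ℝ) ≤ M := by exact_mod_cast hMpos
  have hMr0 : (0 : ℝ) < M := by linarith
  have h7 := hB M hMB
  set q : ℕ := ⌈(M : ℝ) ^ (1 - x)⌉₊ with hq
  have hq1 : (M : ℝ) ^ (1 - x) ≤ q := Nat.le_ceil _
  have hq2 : (q : ℝ) < (M : ℝ) ^ (1 - x) + 1 := Nat.ceil_lt_add_one (by positivity)
  have hone : (1 : ℝ) ≤ (M : ℝ) ^ (1 - x) := Real.one_le_rpow hMr (by linarith)
  have hqpos : 1 ≤ q := by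
    have : (1 : ℝ) ≤ q := hone.trans hq1
    exact_mod_cast this
  obtain ⟨n0, hn0⟩ := hP (M * q) (Nat.mul_pos hMpos hqpos)
  obtain ⟨n, T, hn, h1, h2, h3⟩ := tree_U M hMpos U hU n0
  have h4 := hn0 n hn (even_card T h2) T h1 h2
  have h5 : (({l : ℕ | l ≤ M * q ∧ ∃ u v, (T.neighborSet u).ncard = 1 ∧
      (T.neighborSet v).ncard = 1 ∧ ∃ p : T.Walk u v, p.IsPath ∧ p.length = l}).ncard : ℝ) ≤
      ((1 + (M + 1) + (M * q / M + 1) * (U + U).card : ℕ) : ℝ) := by
    have hfin : {n : ℕ | n ≤ M * q ∧ (n = 0 ∨ n ∈ LL M U)}.Finite :=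
      (Set.finite_Iic (M * q)).subset (fun n hn => hn.1)
    have := (Set.ncard_le_ncard (s := {l : ℕ | l ≤ M * q ∧ ∃ u v, (T.neighborSet u).ncard = 1 ∧
      (T.neighborSet v).ncard = 1 ∧ ∃ p : T.Walk u v, p.IsPath ∧ p.length = l})
      (t := {n : ℕ | n ≤ M * q ∧ (n = 0 ∨ n ∈ LL M U)}) (by
        rintro l ⟨hl, u, v, hu, hv, p, hp, rfl⟩
        exact ⟨hl, h3 u v hu hv p hp⟩) hfin).trans (count M hMpos U (M * q))
    exact_mod_cast this
  rw [Nat.mul_div_cancel_left _ hMpos] at h5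
  push_cast at h5
  have h6 : ((q : ℝ) + 1) * ((U + U).card : ℝ) ≤ 3 * M := by
    have a1 : ((q : ℝ) + 1) * ((U + U).card : ℝ) ≤ (3 * (M : ℝ) ^ (1 - x)) * (M : ℝ) ^ x :=
      mul_le_mul (by linarith) hcard (by positivity) (by positivity)
    have a2 : (M : ℝ) ^ (1 - x) * (M : ℝ) ^ x = M := by
      rw [← Real.rpow_add hMr0]
      simp
    calc _ ≤ _ := a1
      _ = 3 * ((M : ℝ) ^ (1 - x) * (M : ℝ) ^ x) := by ring
      _ = _ := by rw [a2]
  have h8 : κ * (M : ℝ) ^ ((2 - x) * c) ≤ κ * ((M * q : ℕ) : ℝ) ^ c := by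
    apply mul_le_mul_of_nonneg_left _ hκ.le
    have : (M : ℝ) ^ (2 - x) ≤ ((M * q : ℕ) : ℝ) := by
      push_cast
      have e : (2 - x) = 1 + (1 - x) := by ring
      rw [e, Real.rpow_add hMr0, Real.rpow_one]
      exact mul_le_mul_of_nonneg_left hq1 hMr0.le
    rw [Real.rpow_mul hMr0.le]
    exact Real.rpow_le_rpow (by positivity) this hc0.le
  have h9 : (M : ℝ) ^ ((2 - x) * c) = (M : ℝ) ^ ((2 - x) * c - 1) * M := by
    rw [Real.rpow_sub_one hMr0.ne']
    field_simp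
  have h10 : 7 < κ * (M : ℝ) ^ ((2 - x) * c - 1) := by
    rw [div_lt_iff₀ hκ] at h7
    linarith
  have h11 : 7 * (M : ℝ) < κ * (M : ℝ) ^ ((2 - x) * c) := by
    rw [h9, ← mul_assoc]
    exact mul_lt_mul_of_pos_right h10 hMr0
  linarith

end Pool.Agent.TH438.LL
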