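import Pool.Agent.TH438.LL.D

/-!
# Simplices: few sums, many differences
-/

set_option autoImplicit false

namespace Pool.Agent.TH438.LL

open Finset
open scoped Pointwise

section
variable (ι : Type) [Fintype ι] [DecidableEq ι]

/-- vectors of natural numbers with bounded sum -/
def AL (L : ℕ) : Finset (ι → ℕ) :=
  (Fintype.piFinset fun _ => range (L + 1)).filter (fun x => ∑ i, x i ≤ L)

variable {ι}

lemma mem_AL {L : ℕ} {x : ι → ℕ} : x ∈ AL ι L ↔ ∑ i, x i ≤ L := by
  simp only [AL, mem_filter, Fintype.mem_piFinset, mem_range]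
  constructor
  · exact fun h => h.2
  · intro h
    refine ⟨fun i => ?_, h⟩
    have := single_le_sum (f := x) (fun j _ => Nat.zero_le _) (mem_univ i)
    omega

variable (ι)

lemma card_AL (L : ℕ) (t : ℝ) (h0 : 0 < t) (h1 : t < 1) :
    ((AL ι L).card : ℝ) * t ^ L ≤ (1 / (1 - t)) ^ (Fintype.card ι) := by
  have h2 : ((AL ι L).card : ℝ) * t ^ L ≤ ∑ x ∈ AL ι L, ∏ i, t ^ (x i) := by
    rw [← nsmul_eq_mul]
    apply card_nsmul_le_sum
    intro x hx
    rw [prod_pow_eq_pow_sum]
    exact pow_le_pow_of_le_one h0.le h1.le (mem_AL.1 hx)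
  have h3 : ∑ x ∈ AL ι L, ∏ i, t ^ (x i) ≤
      ∑ x ∈ Fintype.piFinset (fun _ : ι => range (L + 1)), ∏ i, t ^ (x i) :=
    sum_le_sum_of_subset_of_nonneg (filter_subset _ _)
      (fun x _ _ => prod_nonneg fun i _ => by positivity)
  have h3' := prod_univ_sum (fun _ : ι => range (L + 1)) (fun _ j => t ^ j)
  rw [← h3'] at h3
  have h4 : ∑ j ∈ range (L + 1), t ^ j ≤ 1 / (1 - t) := by
    rw [le_div_iff₀ (by linarith), mul_comm, mul_neg_geom_sum]
    have := pow_nonneg h0.le (L + 1)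
    linarith
  refine h2.trans (h3.trans ?_)
  rw [prod_const, card_univ]
  exact pow_le_pow_left₀ (by positivity) h4 _

end

/-- entries -/
abbrev En (V : ℕ) : Type := Fin (V + 1) ⊕ Fin V

/-- positive part -/
def pos {V : ℕ} : En V → ℕ
  | .inl j => j
  | .inr _ => 0

/-- negative part -/
def neg {V : ℕ} : En V → ℕ
  | .inl _ => 0
  | .inr j => j + 1

lemma en_inj {V : ℕ} {e e' : En V} (h : ((pos e : ℕ) : ℤ) - neg e = pos e' - neg e') : e = e' := by
  rcases e with e | e <;> rcases e' with e' | e' <;> simp only [pos, neg] at h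
  · congr 1
    apply Fin.ext
    omega
  · omega
  · omega
  · congr 1
    apply Fin.ext
    omega

lemma pos_le {V : ℕ} (e : En V) : pos e ≤ V := by
  rcases e with e | e <;> simp only [pos] <;> omega

lemma neg_le {V : ℕ} (e : En V) : neg e ≤ V := by
  rcases e with e | e <;> simp only [neg] <;> omega

/-- the generating function -/
noncomputable def ZZ (V : ℕ) (t : ℝ) : ℝ := ∑ e : En V, t ^ (pos e + neg e)

lemma ZZ_eq (V : ℕ) (t : ℝ) (h1 : t < 1) :
    ZZ V t = (1 - t ^ (V + 1)) / (1 - t) + t * ((1 - t ^ V) / (1 - t)) := by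
  have h : (1 - t) ≠ 0 := by linarith
  unfold ZZ
  rw [Fintype.sum_sum_type]
  simp only [pos, neg, add_zero, zero_add]
  rw [Fin.sum_univ_eq_sum_range (fun j => t ^ j), Fin.sum_univ_eq_sum_range (fun j => t ^ (j + 1))]
  simp only [pow_succ]
  rw [← sum_mul]
  have e1 := mul_neg_geom_sum t (V + 1)
  have e2 := mul_neg_geom_sum t V
  rw [← e2, ← pow_succ, ← e1]
  field_simp

/-- the vectors with positive part of sum `a` and negative part of sum `b` -/
def FF (V n a b : ℕ) : Finset (Fin n → En V) :=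
  univ.filter (fun w => ∑ i, pos (w i) = a ∧ ∑ i, neg (w i) = b)

lemma pigeon (V n : ℕ) (t : ℝ) (h0 : 0 < t) : ∃ a b : ℕ,
    ZZ V t ^ n ≤ ((V * n + 1 : ℕ) : ℝ) ^ 2 * ((FF V n a b).card * t ^ (a + b)) := by
  have h1 : ZZ V t ^ n = ∑ w : Fin n → En V, t ^ (∑ i, pos (w i) + ∑ i, neg (w i)) := by
    unfold ZZ
    rw [Fintype.sum_pow]
    refine sum_congr rfl fun w _ => ?_
    rw [prod_pow_eq_pow_sum, sum_add_distrib]
  let R := range (V * n + 1) ×ˢ range (V * n + 1)
  have hmap : ∀ w ∈ (univ : Finset (Fin n → En V)),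
      ((∑ i, pos (w i), ∑ i, neg (w i)) : ℕ × ℕ) ∈ R := by
    intro w _
    have a1 : ∑ i, pos (w i) ≤ ∑ _i : Fin n, V := sum_le_sum fun i _ => pos_le _
    have a2 : ∑ i, neg (w i) ≤ ∑ _i : Fin n, V := sum_le_sum fun i _ => neg_le _
    rw [sum_const, card_univ, Fintype.card_fin, smul_eq_mul, mul_comm] at a1 a2
    simp only [R, mem_product, mem_range]
    omega
  have h2 : ZZ V t ^ n = ∑ r ∈ R, ((FF V n r.1 r.2).card * t ^ (r.1 + r.2) : ℝ) := by
    rw [h1, ← sum_fiberwise_of_maps_to hmap]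
    refine sum_congr rfl fun r _ => ?_
    rw [← nsmul_eq_mul, ← sum_const]
    refine sum_congr ?_ ?_
    · ext w
      simp only [FF, mem_filter, mem_univ, true_and, Prod.ext_iff]
    · intro w hw
      simp only [FF, mem_filter, mem_univ, true_and] at hw
      rw [hw.1, hw.2]
  have hR : R.Nonempty := ⟨(0, 0), by simp [R]⟩
  have hRc : (R.card : ℝ) = ((V * n + 1 : ℕ) : ℝ) ^ 2 := by
    simp only [R, card_product, card_range]
    push_cast
    ring
  obtain ⟨r, hr, h3⟩ := exists_le_of_sum_le (s := R) (f := fun _ => ZZ V t ^ n / R.card)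
    (g := fun r => ((FF V n r.1 r.2).card * t ^ (r.1 + r.2) : ℝ)) hR (by
      rw [sum_const, ← h2, nsmul_eq_mul]
      have : (R.card : ℝ) ≠ 0 := by exact_mod_cast hR.card_pos.ne'
      exact (mul_div_cancel₀ _ this).le)
  refine ⟨r.1, r.2, ?_⟩
  have : (0 : ℝ) < R.card := by exact_mod_cast hR.card_pos
  rw [div_le_iff₀ this, hRc] at h3
  linarith

end Pool.Agent.TH438.LL
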