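import Mathlib

/-!
# Random linear maps to `ZMod p`, and greedy covering by translates
-/

set_option autoImplicit false

namespace Pool.Agent.TH438.LL

open Finset
open scoped Pointwise

section
variable {ι : Type} [Fintype ι] [DecidableEq ι] (p : ℕ) [Fact p.Prime]

/-- linear form -/
def dt (a v : ι → ZMod p) : ZMod p := ∑ i, a i * v i

lemma dt_sub (a v w : ι → ZMod p) : dt p a (v - w) = dt p a v - dt p a w := by
  simp only [dt, Pi.sub_apply, mul_sub, sum_sub_distrib]

lemma card_ker (v : ι → ZMod p) (hv : v ≠ 0) :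
    p * (univ.filter (fun a : ι → ZMod p => dt p a v = 0)).card ≤ p ^ (Fintype.card ι) := by
  obtain ⟨i0, hi⟩ := Function.ne_iff.1 hv
  have hi' : v i0 ≠ 0 := hi
  have h1 : ((univ : Finset (ZMod p)) ×ˢ
      (univ.filter (fun a : ι → ZMod p => dt p a v = 0))).card ≤
      (univ : Finset (ι → ZMod p)).card := by
    apply card_le_card_of_injOn (fun z : ZMod p × (ι → ZMod p) => z.2 + Pi.single i0 z.1)
    · intro z _
      simp
    · rintro ⟨c, a⟩ h ⟨c', a'⟩ h' hh
      simp only [coe_product, Set.mem_prod, mem_coe, mem_filter, mem_univ, true_and] at h h'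
      simp only at hh
      have key : ∀ (c : ZMod p) (a : ι → ZMod p), dt p a v = 0 →
          dt p (a + Pi.single i0 c) v = c * v i0 := by
        intro c a ha
        simp only [dt, Pi.add_apply, add_mul, sum_add_distrib] at ha ⊢
        rw [ha, zero_add, sum_eq_single i0]
        · simp
        · intro j _ hj
          simp [Pi.single_eq_of_ne hj]
        · simp
      have e1 := key c a h
      have e2 := key c' a' h'
      rw [hh, e2] at e1
      have e3 := mul_right_cancel₀ hi' e1
      subst e3
      simp only [add_left_inj] at hh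
      rw [hh]
  rw [card_product, card_univ, ZMod.card, card_univ, Fintype.card_fun, ZMod.card] at h1
  exact h1

lemma exists_form (S : Finset (ι → ZMod p)) (hS : S.Nonempty) : ∃ a : ι → ZMod p,
    S.card * p ≤ (S.image (dt p a)).card * (p + S.card) := by
  classical
  -- number of collisions
  let E : (ι → ZMod p) → ℕ := fun a => ((S ×ˢ S).filter (fun z => dt p a z.1 = dt p a z.2)).card
  have hsum : ∑ a, p * E a ≤ p ^ (Fintype.card ι) * (S.card * p + S.card * S.card) := by
    have e1 : ∑ a, p * E a = ∑ z ∈ S ×ˢ S,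
        p * (univ.filter (fun a : ι → ZMod p => dt p a z.1 = dt p a z.2)).card := by
      rw [← mul_sum, ← mul_sum]
      congr 1
      simp only [E, card_filter]
      rw [sum_comm]
    rw [e1]
    have e2 : ∀ z ∈ S ×ˢ S,
        p * (univ.filter (fun a : ι → ZMod p => dt p a z.1 = dt p a z.2)).card ≤
          (if z.1 = z.2 then p * p ^ (Fintype.card ι) else 0) + p ^ (Fintype.card ι) := by
      rintro ⟨v, w⟩ _
      by_cases h : v = w
      · subst h
        rw [if_pos rfl]
        have : (univ.filter (fun a : ι → ZMod p => dt p a v = dt p a v)).card ≤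
            p ^ (Fintype.card ι) := by
          refine (card_le_univ _).trans ?_
          rw [Fintype.card_fun, ZMod.card]
        exact (Nat.mul_le_mul_left _ this).trans (Nat.le_add_right _ _)
      · simp only [h, if_false, zero_add]
        have := card_ker p (v - w) (sub_ne_zero.2 h)
        simpa only [dt_sub, sub_eq_zero] using this
    refine (sum_le_sum e2).trans ?_
    rw [sum_add_distrib, sum_const, card_product, smul_eq_mul]
    have e3 : ∑ z ∈ S ×ˢ S, (if z.1 = z.2 then p * p ^ (Fintype.card ι) else 0) ≤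
        S.card * (p * p ^ (Fintype.card ι)) := by
      rw [← sum_filter, sum_const, smul_eq_mul]
      apply Nat.mul_le_mul_right
      apply card_le_card_of_injOn (fun z => z.1)
      · intro z hz
        simp only [coe_filter, mem_product, Set.mem_setOf_eq] at hz
        exact hz.1.1
      · rintro ⟨v, w⟩ hz ⟨v', w'⟩ hz' h
        simp only [coe_filter, mem_product, Set.mem_setOf_eq] at hz hz' h
        rw [← hz.2, ← hz'.2, h]
    nlinarith [e3]
  obtain ⟨a, -, ha⟩ : ∃ a ∈ (univ : Finset (ι → ZMod p)),
      p * E a ≤ S.card * p + S.card * S.card := by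
    apply exists_le_of_sum_le univ_nonempty
    rw [sum_const, card_univ, Fintype.card_fun, ZMod.card, smul_eq_mul]
    exact hsum
  refine ⟨a, ?_⟩
  -- Cauchy-Schwarz
  have hcs : S.card ^ 2 ≤ (S.image (dt p a)).card * E a := by
    have f1 : S.card = ∑ y ∈ S.image (dt p a), (S.filter (fun v => dt p a v = y)).card :=
      card_eq_sum_card_image _ _
    have f2 : E a = ∑ y ∈ S.image (dt p a), (S.filter (fun v => dt p a v = y)).card ^ 2 := by
      simp only [E]
      rw [card_eq_sum_card_fiberwise (f := fun z : (ι → ZMod p) × (ι → ZMod p) => dt p a z.1)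
        (t := S.image (dt p a))]
      · refine sum_congr rfl fun y _ => ?_
        rw [sq, ← card_product]
        congr 1
        ext ⟨v, w⟩
        simp only [mem_filter, mem_product]
        constructor
        · rintro ⟨⟨⟨h1, h2⟩, h3⟩, h4⟩
          exact ⟨⟨h1, h4⟩, h2, h3 ▸ h4⟩
        · rintro ⟨⟨h1, h4⟩, h2, h5⟩
          exact ⟨⟨⟨h1, h2⟩, h4.trans h5.symm⟩, h4⟩
      · intro z hz
        simp only [coe_filter, mem_product, Set.mem_setOf_eq] at hz
        exact mem_coe.2 (mem_image_of_mem _ hz.1.1)
    conv_lhs => rw [f1]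
    rw [f2]
    exact sq_sum_le_card_mul_sum_sq
  have hpos : 0 < S.card := hS.card_pos
  have h5 : S.card * (S.card * p) ≤ S.card * ((S.image (dt p a)).card * (p + S.card)) := by
    calc S.card * (S.card * p) = S.card ^ 2 * p := by ring
      _ ≤ (S.image (dt p a)).card * E a * p := Nat.mul_le_mul_right _ hcs
      _ = (S.image (dt p a)).card * (p * E a) := by ring
      _ ≤ (S.image (dt p a)).card * (S.card * p + S.card * S.card) := Nat.mul_le_mul_left _ ha
      _ = _ := by ring
  exact Nat.le_of_mul_le_mul_left h5 hpos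

end

section
variable {H : Type} [AddCommGroup H] [Fintype H] [DecidableEq H]

lemma greedy_step (W R : Finset H) (hW : Fintype.card H ≤ 4 * W.card) :
    ∃ τ : H, 4 * (R.filter (fun r => r - τ ∉ W)).card ≤ 3 * R.card := by
  classical
  have h1 : ∑ τ : H, (R.filter (fun r => r - τ ∈ W)).card = R.card * W.card := by
    simp only [card_filter]
    rw [sum_comm]
    have : ∀ r ∈ R, ∑ τ : H, (if r - τ ∈ W then 1 else 0) = W.card := by
      intro r _
      rw [← card_filter]
      apply card_bij (fun τ _ => r - τ)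
      · intro τ hτ
        exact (mem_filter.1 hτ).2
      · intro τ _ τ' _ h
        simpa using h
      · intro w hw
        exact ⟨r - w, by simp [hw], by simp⟩
    rw [sum_congr rfl this, sum_const, smul_eq_mul]
  obtain ⟨τ, -, hτ⟩ : ∃ τ ∈ (univ : Finset H), R.card ≤ 4 * (R.filter (fun r => r - τ ∈ W)).card := by
    apply exists_le_of_sum_le univ_nonempty
    rw [sum_const, card_univ, smul_eq_mul, ← mul_sum, h1]
    nlinarith [Nat.mul_le_mul_left R.card hW]
  refine ⟨τ, ?_⟩
  have h2 := card_filter_add_card_filter_not (s := R) (fun r => r - τ ∈ W)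
  omega

lemma greedy (W : Finset H) (hW : Fintype.card H ≤ 4 * W.card) (k : ℕ) :
    ∃ T : Finset H, T.card ≤ k ∧
      4 ^ k * (univ.filter (fun r => ∀ τ ∈ T, r - τ ∉ W)).card ≤ 3 ^ k * Fintype.card H := by
  classical
  induction k with
  | zero => exact ⟨∅, by simp, by simpa using card_le_univ _⟩
  | succ k ih =>
    obtain ⟨T, hT, h⟩ := ih
    obtain ⟨τ, hτ⟩ := greedy_step W (univ.filter (fun r => ∀ τ ∈ T, r - τ ∉ W)) hW
    refine ⟨insert τ T, (card_insert_le _ _).trans (by omega), ?_⟩
    have e : (univ.filter (fun r => ∀ τ' ∈ insert τ T, r - τ' ∉ W)) =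
        (univ.filter (fun r => ∀ τ ∈ T, r - τ ∉ W)).filter (fun r => r - τ ∉ W) := by
      ext r
      simp only [mem_filter, mem_univ, true_and, mem_insert, forall_eq_or_imp]
      tauto
    rw [e]
    calc _ = 4 ^ k * (4 * ((univ.filter (fun r => ∀ τ ∈ T, r - τ ∉ W)).filter
          (fun r => r - τ ∉ W)).card) := by ring
      _ ≤ 4 ^ k * (3 * (univ.filter (fun r => ∀ τ ∈ T, r - τ ∉ W)).card) :=
          Nat.mul_le_mul_left _ hτ
      _ = 3 * (4 ^ k * (univ.filter (fun r => ∀ τ ∈ T, r - τ ∉ W)).card) := by ring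
      _ ≤ 3 * (3 ^ k * Fintype.card H) := Nat.mul_le_mul_left _ h
      _ = _ := by ring

lemma cover (W : Finset H) (hW : Fintype.card H ≤ 4 * W.card) (k : ℕ)
    (hk : 3 ^ k * Fintype.card H < 4 ^ k) :
    ∃ T : Finset H, T.card ≤ k ∧ ∀ r : H, ∃ τ ∈ T, r - τ ∈ W := by
  obtain ⟨T, hT, h⟩ := greedy W hW k
  refine ⟨T, hT, ?_⟩
  by_contra hc
  push Not at hc
  obtain ⟨r, hr⟩ := hc
  have : 0 < (univ.filter (fun r => ∀ τ ∈ T, r - τ ∉ W)).card :=
    card_pos.2 ⟨r, by simpa using hr⟩
  have := Nat.mul_le_mul_left (4 ^ k) this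
  omega

end

end Pool.Agent.TH438.LL
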