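import Pool.Agent.TH438.LL.F
import Pool.Agent.TH438.LL.G

/-!
# Sets of integers with full difference set modulo `p` and small sumset
-/

set_option autoImplicit false

namespace Pool.Agent.TH438.LL

open Finset
open scoped Pointwise

lemma comb (V n a b k p : ℕ) [Fact p.Prime] (hV : 2 * V < p)
    (hc1 : (FF V n a b).card ^ 2 ≤ p) (hc2 : p ≤ 2 * (FF V n a b).card ^ 2)
    (hk : 3 ^ k * p < 4 ^ k) :
    ∃ U : Finset ℤ, Cov p U ∧
      (U + U).card ≤ (AL (Fin n ⊕ Fin n) (2 * (a + b))).card * (k + 1) ^ 2 := by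
  classical
  set F := FF V n a b with hF
  have hp : 0 < p := (Fact.out : p.Prime).pos
  let dv : (Fin n → En V) × (Fin n → En V) → (Fin n ⊕ Fin n) → ℤ := fun z =>
    Sum.elim (fun i => (pos (z.1 i) : ℤ) - neg (z.1 i)) (fun i => (neg (z.2 i) : ℤ) - pos (z.2 i))
  let xv : (Fin n → En V) × (Fin n → En V) → (Fin n ⊕ Fin n) → ℕ := fun z =>
    Sum.elim (fun i => pos (z.1 i)) (fun i => neg (z.2 i))
  let yv : (Fin n → En V) × (Fin n → En V) → (Fin n ⊕ Fin n) → ℕ := fun z =>
    Sum.elim (fun i => neg (z.1 i)) (fun i => pos (z.2 i))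
  have hdxy : ∀ z i, dv z i = (xv z i : ℤ) - yv z i := by
    rintro z (i | i) <;> simp [dv, xv, yv]
  let S : Finset ((Fin n ⊕ Fin n) → ZMod p) := (F ×ˢ F).image (fun z i => ((dv z i : ℤ) : ZMod p))
  have habs : ∀ z i, |dv z i| ≤ V := by
    rintro ⟨z1, z2⟩ (i | i)
    · have h1 := pos_le (z1 i)
      have h2 := neg_le (z1 i)
      simp only [dv, Sum.elim_inl]
      rw [abs_le]
      omega
    · have h1 := pos_le (z2 i)
      have h2 := neg_le (z2 i)
      simp only [dv, Sum.elim_inr]
      rw [abs_le]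
      omega
  have hinj : Function.Injective
      (fun (z : (Fin n → En V) × (Fin n → En V)) i => ((dv z i : ℤ) : ZMod p)) := by
    intro z z' h
    have h1 : ∀ i, dv z i = dv z' i := by
      intro i
      have h2 := congrFun h i
      simp only at h2
      rw [ZMod.intCast_eq_intCast_iff] at h2
      have h3 := h2.dvd
      have h4 := habs z i
      have h5 := habs z' i
      rw [abs_le] at h4 h5
      have h6 : dv z' i - dv z i = 0 := by
        apply Int.eq_zero_of_abs_lt_dvd h3
        rw [abs_lt]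
        constructor <;> push_cast at * <;> omega
      omega
    have e1 : z.1 = z'.1 := by
      funext i
      have := h1 (Sum.inl i)
      simp only [dv, Sum.elim_inl] at this
      exact en_inj this
    have e2 : z.2 = z'.2 := by
      funext i
      have := h1 (Sum.inr i)
      simp only [dv, Sum.elim_inr] at this
      exact en_inj (by omega)
    exact Prod.ext e1 e2
  have hScard : S.card = F.card ^ 2 := by
    simp only [S]
    rw [card_image_of_injective _ hinj, card_product, sq]
  have hSne : S.Nonempty := by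
    rw [← card_pos, hScard]
    omega
  obtain ⟨g, hg⟩ := exists_form p S hSne
  set W := S.image (dt p g) with hW
  have hW4 : Fintype.card (ZMod p) ≤ 4 * W.card := by
    rw [ZMod.card]
    have h1 : S.card * p ≤ 2 * W.card * p := by
      calc _ ≤ _ := hg
        _ ≤ W.card * (p + p) := Nat.mul_le_mul_left _ (by omega)
        _ = _ := by ring
    have h2 := Nat.le_of_mul_le_mul_right h1 hp
    omega
  obtain ⟨T, hT, hTc⟩ := cover W hW4 k (by rw [ZMod.card]; exact hk)
  let φ : ((Fin n ⊕ Fin n) → ℕ) → ℤ := fun x => ∑ i, ((g i).val : ℤ) * x i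
  have hφadd : ∀ x y, φ (x + y) = φ x + φ y := by
    intro x y
    simp only [φ, Pi.add_apply]
    push_cast
    rw [← sum_add_distrib]
    exact sum_congr rfl fun i _ => by ring
  have hφcast : ∀ x, ((φ x : ℤ) : ZMod p) = ∑ i, g i * (x i : ZMod p) := by
    intro x
    simp only [φ]
    push_cast
    refine sum_congr rfl fun i _ => ?_
    rw [ZMod.natCast_zmod_val]
  let U0 : Finset ℤ := (AL (Fin n ⊕ Fin n) (a + b)).image φ
  let T' : Finset ℤ := (insert 0 T).image (fun τ : ZMod p => (τ.val : ℤ))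
  refine ⟨U0 + T', ?_, ?_⟩
  · intro c
    obtain ⟨τ, hτ, hr⟩ := hTc (c : ZMod p)
    rw [hW, mem_image] at hr
    obtain ⟨s, hs, hsr⟩ := hr
    simp only [S, mem_image, mem_product] at hs
    obtain ⟨z, ⟨hz1, hz2⟩, rfl⟩ := hs
    simp only [hF, FF, mem_filter, mem_univ, true_and] at hz1 hz2
    have hx : xv z ∈ AL (Fin n ⊕ Fin n) (a + b) := by
      rw [mem_AL, Fintype.sum_sum_type]
      simp only [xv, Sum.elim_inl, Sum.elim_inr]
      omega
    have hy : yv z ∈ AL (Fin n ⊕ Fin n) (a + b) := by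
      rw [mem_AL, Fintype.sum_sum_type]
      simp only [yv, Sum.elim_inl, Sum.elim_inr]
      omega
    refine ⟨φ (xv z) + τ.val, add_mem_add (mem_image_of_mem _ hx)
      (mem_image_of_mem _ (mem_insert_of_mem hτ)), φ (yv z) + (0 : ZMod p).val,
      add_mem_add (mem_image_of_mem _ hy) (mem_image_of_mem _ (mem_insert_self _ _)), ?_⟩
    rw [← ZMod.intCast_eq_intCast_iff]
    push_cast
    rw [hφcast, hφcast, ZMod.natCast_zmod_val, ZMod.val_zero, Nat.cast_zero, add_zero]
    have h1 : dt p g (fun i => ((dv z i : ℤ) : ZMod p)) =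
        ∑ i, g i * (xv z i : ZMod p) - ∑ i, g i * (yv z i : ZMod p) := by
      simp only [dt]
      rw [← sum_sub_distrib]
      refine sum_congr rfl fun i _ => ?_
      rw [hdxy]
      push_cast
      ring
    rw [h1] at hsr
    linear_combination hsr
  · have h1 : (U0 + T') + (U0 + T') ⊆ ((AL (Fin n ⊕ Fin n) (2 * (a + b))).image φ) + (T' + T') := by
      intro u hu
      obtain ⟨u1, hu1, u2, hu2, rfl⟩ := mem_add.1 hu
      obtain ⟨v1, hv1, t1, ht1, rfl⟩ := mem_add.1 hu1
      obtain ⟨v2, hv2, t2, ht2, rfl⟩ := mem_add.1 hu2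
      obtain ⟨x1, hx1, rfl⟩ := mem_image.1 hv1
      obtain ⟨x2, hx2, rfl⟩ := mem_image.1 hv2
      have e : φ x1 + t1 + (φ x2 + t2) = φ (x1 + x2) + (t1 + t2) := by
        rw [hφadd]
        ring
      rw [e]
      refine add_mem_add (mem_image_of_mem _ ?_) (add_mem_add ht1 ht2)
      rw [mem_AL] at *
      simp only [Pi.add_apply, sum_add_distrib]
      omega
    have h2 : T'.card ≤ k + 1 :=
      card_image_le.trans ((card_insert_le _ _).trans (by omega))
    calc _ ≤ _ := card_le_card h1
      _ ≤ ((AL (Fin n ⊕ Fin n) (2 * (a + b))).image φ).card * (T' + T').card := card_add_le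
      _ ≤ (AL (Fin n ⊕ Fin n) (2 * (a + b))).card * (T'.card * T'.card) :=
        Nat.mul_le_mul card_image_le card_add_le
      _ ≤ (AL (Fin n ⊕ Fin n) (2 * (a + b))).card * (k + 1) ^ 2 := by
        apply Nat.mul_le_mul_left
        rw [sq]
        exact Nat.mul_le_mul h2 h2

end Pool.Agent.TH438.LL
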