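import Pool.Agent.TH438.LL.H

/-!
# Asymptotics: the exponent `log 2 / log (1 + √2)`
-/

set_option autoImplicit false

namespace Pool.Agent.TH438.LL

open Finset Filter Topology
open scoped Pointwise

lemma exists_V (t x : ℝ) (h0 : 0 < t) (h1 : t < 1) (hx0 : 0 < x)
    (h : 1 < (1 - t ^ x) * ((1 + t) / (1 - t)) ^ x) :
    ∃ V : ℕ, 1 < (1 - t ^ x) * (ZZ V t) ^ x := by
  have hpos : (0 : ℝ) < 1 - t := by linarith
  have ht : Tendsto (fun V : ℕ => t ^ V) atTop (𝓝 0) :=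
    tendsto_pow_atTop_nhds_zero_of_lt_one h0.le h1
  have ht' : Tendsto (fun V : ℕ => t ^ (V + 1)) atTop (𝓝 0) :=
    (tendsto_add_atTop_iff_nat 1).2 ht
  have h2 : Tendsto (fun V : ℕ => ZZ V t) atTop (𝓝 ((1 + t) / (1 - t))) := by
    have h3 : Tendsto (fun V : ℕ => (1 - t ^ (V + 1)) / (1 - t) + t * ((1 - t ^ V) / (1 - t)))
        atTop (𝓝 ((1 - 0) / (1 - t) + t * ((1 - 0) / (1 - t)))) :=
      ((tendsto_const_nhds.sub ht').div_const _).add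
        (((tendsto_const_nhds.sub ht).div_const _).const_mul _)
    have e : (1 - 0) / (1 - t) + t * ((1 - 0) / (1 - t)) = (1 + t) / (1 - t) := by
      field_simp
      ring
    rw [e] at h3
    exact h3.congr fun V => (ZZ_eq V t h1).symm
  have h4 : Tendsto (fun V : ℕ => (1 - t ^ x) * (ZZ V t) ^ x) atTop
      (𝓝 ((1 - t ^ x) * ((1 + t) / (1 - t)) ^ x)) :=
    (h2.rpow_const (Or.inl (by positivity))).const_mul _
  exact (h4.eventually (lt_mem_nhds h)).exists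

lemma poly_exp (C r : ℝ) (hr : 1 < r) (j : ℕ) : ∀ᶠ n : ℕ in atTop, C * (n : ℝ) ^ j ≤ r ^ n := by
  have h1 := tendsto_pow_const_div_const_pow_of_one_lt j hr
  have h2 : ∀ᶠ n : ℕ in atTop, (n : ℝ) ^ j / r ^ n < 1 / (|C| + 1) :=
    h1.eventually (gt_mem_nhds (by positivity))
  filter_upwards [h2] with n hn
  have hr0 : 0 < r ^ n := by positivity
  rw [div_lt_div_iff₀ hr0 (by positivity), one_mul] at hn
  have h3 : C * (n : ℝ) ^ j ≤ (|C| + 1) * (n : ℝ) ^ j :=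
    mul_le_mul_of_nonneg_right (by linarith [le_abs_self C]) (by positivity)
  linarith

theorem fam_of (t x : ℝ) (h0 : 0 < t) (h1 : t < 1) (hx0 : 0 < x) (hx1 : x ≤ 1)
    (h : 1 < (1 - t ^ x) * ((1 + t) / (1 - t)) ^ x) : Fam x := by
  intro M0
  obtain ⟨V, hV⟩ := exists_V t x h0 h1 hx0 h
  set Z := ZZ V t with hZ
  have htx0 : 0 < t ^ x := Real.rpow_pos_of_pos h0 x
  have htx1 : t ^ x < 1 := Real.rpow_lt_one h0.le h1 hx0
  have hZ0 : 0 ≤ Z := by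
    rw [hZ]
    unfold ZZ
    positivity
  have hZx : 1 < Z ^ x := by
    by_contra hc
    have : (1 - t ^ x) * Z ^ x ≤ 1 * 1 :=
      mul_le_mul (by linarith) (not_lt.1 hc) (Real.rpow_nonneg hZ0 _) zero_le_one
    linarith
  have hZ1 : 1 < Z := by
    by_contra hc
    have := Real.rpow_le_one hZ0 (not_lt.1 hc) hx0.le
    linarith
  set ρ := (1 - t ^ x) * Z ^ x with hρ
  have hρ0 : 0 < ρ := by linarith
  have ev1 := poly_exp (((4 + 6 * (2 * V + 1) : ℕ) : ℝ) ^ 2 * ((V + 1 : ℕ) : ℝ) ^ 4) (ρ ^ 2)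
    (by nlinarith) 6
  have ev2 := poly_exp (((2 * V + M0 + 1 : ℕ) : ℝ) * ((V + 1 : ℕ) : ℝ) ^ 2) Z hZ1 2
  obtain ⟨n, ⟨hn1, hn2⟩, hn3⟩ := ((ev1.and ev2).and (eventually_ge_atTop 1)).exists
  obtain ⟨a, b, hab⟩ := pigeon V n t h0
  rw [← hZ] at hab
  set c := (FF V n a b).card with hc
  have hn3' : (1 : ℝ) ≤ n := by exact_mod_cast hn3
  have hVn : ((V * n + 1 : ℕ) : ℝ) ≤ ((V + 1 : ℕ) : ℝ) * n := by
    push_cast
    nlinarith
  have hVn0 : (1 : ℝ) ≤ ((V * n + 1 : ℕ) : ℝ) := by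
    push_cast
    have : (0 : ℝ) ≤ (V : ℝ) * n := by positivity
    linarith
  -- size of c
  have hcB : ((2 * V + M0 + 1 : ℕ) : ℝ) ≤ c := by
    have a1 : t ^ (a + b) ≤ 1 := pow_le_one₀ h0.le h1.le
    have a2 : Z ^ n ≤ ((V + 1 : ℕ) : ℝ) ^ 2 * (n : ℝ) ^ 2 * c := by
      calc Z ^ n ≤ _ := hab
        _ ≤ (((V + 1 : ℕ) : ℝ) * n) ^ 2 * (c * 1) :=
          mul_le_mul (pow_le_pow_left₀ (by linarith) hVn 2)
            (mul_le_mul_of_nonneg_left a1 (by positivity)) (by positivity) (by positivity)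
        _ = _ := by ring
    have a3 : ((2 * V + M0 + 1 : ℕ) : ℝ) * (((V + 1 : ℕ) : ℝ) ^ 2 * (n : ℝ) ^ 2) ≤
        c * (((V + 1 : ℕ) : ℝ) ^ 2 * (n : ℝ) ^ 2) := by
      calc _ = ((2 * V + M0 + 1 : ℕ) : ℝ) * ((V + 1 : ℕ) : ℝ) ^ 2 * (n : ℝ) ^ 2 := by ring
        _ ≤ Z ^ n := hn2
        _ ≤ _ := a2
        _ = _ := by ring
    exact le_of_mul_le_mul_right a3 (by positivity)
  have hcB' : 2 * V + M0 + 1 ≤ c := by exact_mod_cast hcB
  have hcc : c ≤ c ^ 2 := by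
    rw [sq]
    exact Nat.le_mul_of_pos_left c (by omega)
  obtain ⟨p, hp, hp1, hp2⟩ := Nat.exists_prime_lt_and_le_two_mul (c ^ 2) (by
    have : 0 < c ^ 2 := by omega
    omega)
  haveI : Fact p.Prime := ⟨hp⟩
  -- the number of translates
  set m := 1 + (2 * V + 1) * (2 * n) with hm
  have hcu : c ≤ (2 * V + 1) ^ n := by
    have : c ≤ Fintype.card (Fin n → En V) := card_le_univ _
    rw [Fintype.card_fun, Fintype.card_sum, Fintype.card_fin, Fintype.card_fin,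
      Fintype.card_fin] at this
    have e : V + 1 + V = 2 * V + 1 := by ring
    rwa [e] at this
  have hpm : p ≤ 2 ^ m := by
    calc p ≤ 2 * c ^ 2 := hp2
      _ ≤ 2 * ((2 * V + 1) ^ n) ^ 2 := Nat.mul_le_mul_left _ (Nat.pow_le_pow_left hcu 2)
      _ ≤ 2 * ((2 ^ (2 * V + 1)) ^ n) ^ 2 := Nat.mul_le_mul_left _ (Nat.pow_le_pow_left
          (Nat.pow_le_pow_left (Nat.lt_two_pow_self).le n) 2)
      _ = 2 ^ m := by
          rw [hm, ← pow_mul, ← pow_mul, pow_add, pow_one]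
          congr 2
          ring
  have hk : 3 ^ (3 * m) * p < 4 ^ (3 * m) := by
    calc 3 ^ (3 * m) * p ≤ 3 ^ (3 * m) * 2 ^ m := Nat.mul_le_mul_left _ hpm
      _ = 54 ^ m := by
          rw [pow_mul, ← mul_pow]
          norm_num
      _ < 64 ^ m := Nat.pow_lt_pow_left (by norm_num) (by omega)
      _ = 4 ^ (3 * m) := by
          rw [pow_mul]
          norm_num
  obtain ⟨U, hU, hUc⟩ := comb V n a b (3 * m) p (by omega) hp1.le hp2 hk
  refine ⟨p, by omega, hp.pos, U, hU, ?_⟩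
  -- the estimate
  have hAL := card_AL (Fin n ⊕ Fin n) (2 * (a + b)) (t ^ x) htx0 htx1
  set A := ((AL (Fin n ⊕ Fin n) (2 * (a + b))).card : ℝ) with hA
  have hA0 : 0 ≤ A := by positivity
  rw [Fintype.card_sum, Fintype.card_fin] at hAL
  have hc0 : (0 : ℝ) < c := by
    have : 0 < c := by omega
    exact_mod_cast this
  -- c ^ x
  have b1 : (Z ^ x) ^ n ≤ ((V * n + 1 : ℕ) : ℝ) ^ 2 * ((c : ℝ) ^ x * (t ^ x) ^ (a + b)) := by
    have e1 : (Z ^ x) ^ n = (Z ^ n) ^ x := by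
      rw [← Real.rpow_natCast, ← Real.rpow_mul hZ0, mul_comm, Real.rpow_mul hZ0,
        Real.rpow_natCast]
    have e2 : (t ^ x) ^ (a + b) = (t ^ (a + b)) ^ x := by
      rw [← Real.rpow_natCast, ← Real.rpow_mul h0.le, mul_comm, Real.rpow_mul h0.le,
        Real.rpow_natCast]
    rw [e1, e2, ← Real.mul_rpow hc0.le (by positivity)]
    calc (Z ^ n) ^ x ≤ (((V * n + 1 : ℕ) : ℝ) ^ 2 * (c * t ^ (a + b))) ^ x :=
          Real.rpow_le_rpow (by positivity) hab hx0.le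
      _ = (((V * n + 1 : ℕ) : ℝ) ^ 2) ^ x * (c * t ^ (a + b)) ^ x :=
          Real.mul_rpow (by positivity) (by positivity)
      _ ≤ ((V * n + 1 : ℕ) : ℝ) ^ 2 * (c * t ^ (a + b)) ^ x := by
          apply mul_le_mul_of_nonneg_right _ (by positivity)
          have hge : (1 : ℝ) ≤ ((V * n + 1 : ℕ) : ℝ) ^ 2 := one_le_pow₀ hVn0
          calc _ ≤ (((V * n + 1 : ℕ) : ℝ) ^ 2) ^ (1 : ℝ) :=
                Real.rpow_le_rpow_of_exponent_le hge hx1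
            _ = _ := Real.rpow_one _
  have b2 : (Z ^ x) ^ (2 * n) ≤
      ((V * n + 1 : ℕ) : ℝ) ^ 4 * (((c : ℝ) ^ x) ^ 2 * (t ^ x) ^ (2 * (a + b))) := by
    have := pow_le_pow_left₀ (by positivity) b1 2
    calc (Z ^ x) ^ (2 * n) = ((Z ^ x) ^ n) ^ 2 := by rw [← pow_mul, mul_comm]
      _ ≤ _ := this
      _ = _ := by ring
  have b3 : ((c : ℝ) ^ x) ^ 2 ≤ (p : ℝ) ^ x := by
    have e1 : ((c : ℝ) ^ x) ^ 2 = ((c : ℝ) ^ 2) ^ x := by
      rw [← Real.rpow_natCast, ← Real.rpow_mul hc0.le, mul_comm, Real.rpow_mul hc0.le,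
        Real.rpow_natCast]
    rw [e1]
    apply Real.rpow_le_rpow (by positivity) _ hx0.le
    exact_mod_cast hp1.le
  have htx2 : (0 : ℝ) < 1 - t ^ x := by linarith
  -- A * (t^x)^(2L) * ρ^(2n) ≤ (Z^x)^(2n)
  have b4 : A * (t ^ x) ^ (2 * (a + b)) * ρ ^ (2 * n) ≤ (Z ^ x) ^ (2 * n) := by
    have e : n + n = 2 * n := by ring
    rw [e] at hAL
    calc A * (t ^ x) ^ (2 * (a + b)) * ρ ^ (2 * n)
        ≤ (1 / (1 - t ^ x)) ^ (2 * n) * ρ ^ (2 * n) :=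
          mul_le_mul_of_nonneg_right hAL (by positivity)
      _ = (1 / (1 - t ^ x) * ρ) ^ (2 * n) := (mul_pow _ _ _).symm
      _ = _ := by
          rw [hρ]
          congr 1
          field_simp
  have b5 : A * ρ ^ (2 * n) ≤ ((V * n + 1 : ℕ) : ℝ) ^ 4 * (p : ℝ) ^ x := by
    have hpos : 0 < (t ^ x) ^ (2 * (a + b)) := by positivity
    have : A * ρ ^ (2 * n) * (t ^ x) ^ (2 * (a + b)) ≤
        ((V * n + 1 : ℕ) : ℝ) ^ 4 * (p : ℝ) ^ x * (t ^ x) ^ (2 * (a + b)) := by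
      calc _ = A * (t ^ x) ^ (2 * (a + b)) * ρ ^ (2 * n) := by ring
        _ ≤ _ := b4
        _ ≤ _ := b2
        _ ≤ ((V * n + 1 : ℕ) : ℝ) ^ 4 * ((p : ℝ) ^ x * (t ^ x) ^ (2 * (a + b))) := by
            apply mul_le_mul_of_nonneg_left _ (by positivity)
            exact mul_le_mul_of_nonneg_right b3 (by positivity)
        _ = _ := by ring
    exact le_of_mul_le_mul_right this hpos
  -- k + 1
  have b6 : ((3 * m + 1 : ℕ) : ℝ) ≤ ((4 + 6 * (2 * V + 1) : ℕ) : ℝ) * n := by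
    have : 3 * m + 1 ≤ (4 + 6 * (2 * V + 1)) * n := by
      rw [hm]
      nlinarith
    exact_mod_cast this
  have b7 : ((3 * m + 1 : ℕ) : ℝ) ^ 2 * ((V * n + 1 : ℕ) : ℝ) ^ 4 ≤ ρ ^ (2 * n) := by
    calc ((3 * m + 1 : ℕ) : ℝ) ^ 2 * ((V * n + 1 : ℕ) : ℝ) ^ 4
        ≤ (((4 + 6 * (2 * V + 1) : ℕ) : ℝ) * n) ^ 2 * (((V + 1 : ℕ) : ℝ) * n) ^ 4 :=
          mul_le_mul (pow_le_pow_left₀ (by positivity) b6 2)
            (pow_le_pow_left₀ (by linarith) hVn 4) (by positivity) (by positivity)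
      _ = ((4 + 6 * (2 * V + 1) : ℕ) : ℝ) ^ 2 * ((V + 1 : ℕ) : ℝ) ^ 4 * (n : ℝ) ^ 6 := by ring
      _ ≤ (ρ ^ 2) ^ n := hn1
      _ = _ := by rw [← pow_mul]
  have hUr : ((U + U).card : ℝ) ≤ A * ((3 * m + 1 : ℕ) : ℝ) ^ 2 := by
    rw [hA]
    exact_mod_cast hUc
  have hVpos : (0 : ℝ) < ((V * n + 1 : ℕ) : ℝ) ^ 4 := by positivity
  refine hUr.trans ?_
  have : A * ((3 * m + 1 : ℕ) : ℝ) ^ 2 * ((V * n + 1 : ℕ) : ℝ) ^ 4 ≤
      (p : ℝ) ^ x * ((V * n + 1 : ℕ) : ℝ) ^ 4 := by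
    calc _ = A * (((3 * m + 1 : ℕ) : ℝ) ^ 2 * ((V * n + 1 : ℕ) : ℝ) ^ 4) := by ring
      _ ≤ A * ρ ^ (2 * n) := mul_le_mul_of_nonneg_left b7 hA0
      _ ≤ _ := b5
      _ = _ := by ring
  exact le_of_mul_le_mul_right this hVpos

end Pool.Agent.TH438.LL
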