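import Mathlib

/-!
# Lower bound: facts on leaf paths in 1-3 trees
-/

set_option autoImplicit false

namespace Pool.Agent.TH438.LL

open SimpleGraph

section
variable {n : ℕ} (T : SimpleGraph (Fin n))

/-- leaf -/
def Lf (v : Fin n) : Prop := (T.neighborSet v).ncard = 1

/-- lengths of the paths from `v` with first step `w` which end in a leaf -/
def DA (v w : Fin n) : Set ℕ :=
  {l | ∃ (h : T.Adj v w) (z : Fin n) (p : T.Walk w z), Lf T z ∧ (Walk.cons h p).IsPath ∧
    l = p.length + 1}

/-- leaf-to-leaf lengths -/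
def Ls : Set ℕ := {l | ∃ u v, Lf T u ∧ Lf T v ∧ ∃ p : T.Walk u v, p.IsPath ∧ p.length = l}

variable {T}

lemma snd_eq (hT : T.IsTree) {v w w' x z z' : Fin n} (h : T.Adj v w) (p : T.Walk w z)
    (hp : (Walk.cons h p).IsPath) (h' : T.Adj v w') (p' : T.Walk w' z')
    (hp' : (Walk.cons h' p').IsPath) (hx : x ∈ (Walk.cons h p).support)
    (hx' : x ∈ (Walk.cons h' p').support) (hxv : x ≠ v) : w = w' := by
  have h1 := hT.IsAcyclic.path_unique ⟨_, hp.takeUntil hx⟩ ⟨_, hp'.takeUntil hx'⟩
  have h2 : (Walk.cons h p).takeUntil x hx = (Walk.cons h' p').takeUntil x hx' :=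
    congrArg Subtype.val h1
  have l1 : 1 ≤ ((Walk.cons h p).takeUntil x hx).length := by
    by_contra hc
    have : ((Walk.cons h p).takeUntil x hx).length = 0 := by omega
    exact hxv (Walk.eq_of_length_eq_zero this).symm
  have l2 : 1 ≤ ((Walk.cons h' p').takeUntil x hx').length := by
    rw [← h2]
    exact l1
  have e1 := Walk.getVert_takeUntil hx l1
  have e2 := Walk.getVert_takeUntil hx' l2
  rw [h2, e2] at e1
  simpa using e1.symm

lemma ext_path (hT : T.IsTree) {v v' w z : Fin n} (h : T.Adj v v') (h' : T.Adj v' w)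
    (p : T.Walk w z) (hw : w ≠ v) (hp : (Walk.cons h' p).IsPath) :
    (Walk.cons h (Walk.cons h' p)).IsPath := by
  rw [Walk.cons_isPath_iff]
  refine ⟨hp, fun hv => ?_⟩
  have hq : (Walk.cons h.symm (Walk.nil : T.Walk v v)).IsPath := by
    rw [Walk.cons_isPath_iff]
    exact ⟨Walk.IsPath.nil, by simpa using h.ne'⟩
  exact hw (snd_eq hT h' p hp h.symm Walk.nil hq hv (by simp) h.ne)

lemma DA_step (hT : T.IsTree) {v v' w : Fin n} (h : T.Adj v v') (hw : w ≠ v) {l : ℕ}
    (hl : l ∈ DA T v' w) : l + 1 ∈ DA T v v' := by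
  obtain ⟨h', z, p, hz, hp, rfl⟩ := hl
  exact ⟨h, z, Walk.cons h' p, hz, ext_path hT h h' p hw hp, by simp⟩

lemma DA_join (hT : T.IsTree) {v w w' : Fin n} (hne : w ≠ w') {a b : ℕ} (ha : a ∈ DA T v w)
    (hb : b ∈ DA T v w') : a + b ∈ Ls T := by
  obtain ⟨h, z, p, hz, hp, rfl⟩ := ha
  obtain ⟨h', z', p', hz', hp', rfl⟩ := hb
  refine ⟨z, z', hz, hz', (Walk.cons h p).reverse.append (Walk.cons h' p'), ?_, ?_⟩
  · rw [Walk.isPath_def, Walk.support_append, List.nodup_append]
    refine ⟨?_, ?_, ?_⟩
    · rw [← Walk.isPath_def]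
      exact hp.reverse
    · exact ((Walk.isPath_def _).1 hp').tail
    · intro x hx y hy hxy
      subst hxy
      rw [Walk.support_reverse, List.mem_reverse] at hx
      have hxv : x ≠ v := by
        rintro rfl
        have := (Walk.cons_isPath_iff h' p').1 hp'
        rw [Walk.support_cons, List.tail_cons] at hy
        exact this.2 hy
      exact hne (snd_eq hT h p hp h' p' hp' hx (List.mem_of_mem_tail hy) hxv)
  · simp

variable (T)

/-- all paths with first step `v → w` have length at most `k` -/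
def PL (v w : Fin n) (k : ℕ) : Prop :=
  ∀ (z : Fin n) (h : T.Adj v w) (p : T.Walk w z), (Walk.cons h p).IsPath → p.length + 1 ≤ k

variable {T}

lemma PL_n (v w : Fin n) : PL T v w n := by
  intro z h p hp
  have := hp.length_lt
  rw [Fintype.card_fin, Walk.length_cons] at this
  omega

lemma PL_step (hT : T.IsTree) {v w x : Fin n} {k : ℕ} (h : T.Adj v w) (hx : x ≠ v)
    (hk : PL T v w (k + 1)) : PL T w x k := by
  intro z h' p hp
  have := hk z h (Walk.cons h' p) (ext_path hT h h' p hx hp)
  rw [Walk.length_cons] at this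
  omega

lemma PL_pos {v w : Fin n} (h : T.Adj v w) (hk : PL T v w 0) : False := by
  have hp : (Walk.cons h (Walk.nil : T.Walk w w)).IsPath := by
    rw [Walk.cons_isPath_iff]
    exact ⟨Walk.IsPath.nil, by simpa using h.ne⟩
  have := hk w h Walk.nil hp
  omega

lemma one_DA {v w : Fin n} (h : T.Adj v w) (hw : Lf T w) : 1 ∈ DA T v w := by
  refine ⟨h, w, Walk.nil, hw, ?_, rfl⟩
  rw [Walk.cons_isPath_iff]
  exact ⟨Walk.IsPath.nil, by simpa using h.ne⟩

lemma two_more (hdeg : ∀ v, (T.neighborSet v).ncard = 1 ∨ (T.neighborSet v).ncard = 3)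
    {v w : Fin n} (h : T.Adj v w) (hw : ¬ Lf T w) :
    ∃ x y, T.Adj w x ∧ T.Adj w y ∧ x ≠ v ∧ y ≠ v ∧ x ≠ y := by
  have h3 : (T.neighborSet w).ncard = 3 := (hdeg w).resolve_left hw
  obtain ⟨a, b, c, hab, hac, hbc, he⟩ := Set.ncard_eq_three.1 h3
  have ha : T.Adj w a := by
    have : a ∈ T.neighborSet w := by rw [he]; simp
    exact this
  have hb : T.Adj w b := by
    have : b ∈ T.neighborSet w := by rw [he]; simp
    exact this
  have hc : T.Adj w c := by
    have : c ∈ T.neighborSet w := by rw [he]; simp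
    exact this
  by_cases hva : a = v
  · subst hva
    exact ⟨b, c, hb, hc, hab.symm, hac.symm, hbc⟩
  · by_cases hvb : b = v
    · subst hvb
      exact ⟨a, c, ha, hc, hab, hbc.symm, hac⟩
    · exact ⟨a, b, ha, hb, hva, hvb, hab⟩

lemma DA_nonempty (hT : T.IsTree)
    (hdeg : ∀ v, (T.neighborSet v).ncard = 1 ∨ (T.neighborSet v).ncard = 3) :
    ∀ (k : ℕ) (v w : Fin n), T.Adj v w → PL T v w k → (DA T v w).Nonempty
  | 0, v, w, h, hk => (PL_pos h hk).elim
  | k + 1, v, w, h, hk => by
      by_cases hw : Lf T w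
      · exact ⟨1, one_DA h hw⟩
      · obtain ⟨x, y, hx, hy, hxv, hyv, hxy⟩ := two_more hdeg h hw
        obtain ⟨l, hl⟩ := DA_nonempty hT hdeg k w x hx (PL_step hT h hxv hk)
        exact ⟨l + 1, DA_step hT h hxv hl⟩

lemma tall (hT : T.IsTree)
    (hdeg : ∀ v, (T.neighborSet v).ncard = 1 ∨ (T.neighborSet v).ncard = 3) (g : ℕ)
    (hg : 1 ≤ g) :
    ∀ (k : ℕ) (v w : Fin n), T.Adj v w → PL T v w k → (∀ a ∈ DA T v w, g + 1 ≤ a) →
      2 * g ∈ Ls T
  | 0, v, w, h, hk, _ => (PL_pos h hk).elim
  | k + 1, v, w, h, hk, ha => by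
      have hw : ¬ Lf T w := by
        intro hw
        have := ha 1 (one_DA h hw)
        omega
      obtain ⟨x, y, hx, hy, hxv, hyv, hxy⟩ := two_more hdeg h hw
      by_cases h1 : ∀ a ∈ DA T w x, g + 1 ≤ a
      · exact tall hT hdeg g hg k w x hx (PL_step hT h hxv hk) h1
      · by_cases h2 : ∀ a ∈ DA T w y, g + 1 ≤ a
        · exact tall hT hdeg g hg k w y hy (PL_step hT h hyv hk) h2
        · push Not at h1 h2
          obtain ⟨a, ha1, ha2⟩ := h1
          obtain ⟨b, hb1, hb2⟩ := h2
          have e1 := ha _ (DA_step hT h hxv ha1)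
          have e2 := ha _ (DA_step hT h hyv hb1)
          have e3 : a = g := by omega
          have e4 : b = g := by omega
          subst e3
          rw [e4] at hb1
          have := DA_join hT hxy ha1 hb1
          rwa [two_mul]

/-- ball sizes -/
lemma ball (hdeg : ∀ v, (T.neighborSet v).ncard = 1 ∨ (T.neighborSet v).ncard = 3) (v : Fin n) :
    ∀ r : ℕ, ({u | ∃ p : T.Walk v u, p.length ≤ r}).ncard ≤ 4 ^ r
  | 0 => by
      have : {u | ∃ p : T.Walk v u, p.length ≤ 0} ⊆ {v} := by
        rintro u ⟨p, hp⟩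
        exact (Walk.eq_of_length_eq_zero (by omega : p.length = 0)).symm
      simpa using Set.ncard_le_ncard this
  | r + 1 => by
      classical
      have ih := ball hdeg v r
      set S := {u | ∃ p : T.Walk v u, p.length ≤ r} with hS
      have hsub : {u | ∃ p : T.Walk v u, p.length ≤ r + 1} ⊆
          S ∪ ((S.toFinite.toFinset.biUnion (fun x => (T.neighborSet x).toFinite.toFinset) :
            Finset (Fin n)) : Set (Fin n)) := by
        rintro u ⟨p, hp⟩
        by_cases hpl : p.length ≤ r
        · exact Or.inl ⟨p, hpl⟩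
        · right
          have hl : 0 < p.length := by omega
          simp only [Finset.coe_biUnion, Set.mem_iUnion, Set.Finite.coe_toFinset]
          refine ⟨p.getVert (p.length - 1), ⟨p.take (p.length - 1), ?_⟩, ?_⟩
          · rw [Walk.take_length]
            omega
          · have := p.adj_getVert_succ (i := p.length - 1) (by omega)
            rw [show p.length - 1 + 1 = p.length by omega, Walk.getVert_length] at this
            exact this
      refine (Set.ncard_le_ncard hsub).trans ((Set.ncard_union_le _ _).trans ?_)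
      rw [Set.ncard_coe_finset]
      have h2 : (S.toFinite.toFinset.biUnion
          (fun x => (T.neighborSet x).toFinite.toFinset)).card ≤ S.toFinite.toFinset.card * 3 := by
        apply Finset.card_biUnion_le_card_mul
        intro x _
        rw [← Set.ncard_eq_toFinset_card]
        rcases hdeg x with h | h <;> omega
      rw [← Set.ncard_eq_toFinset_card] at h2
      rw [pow_succ]
      omega

end

end Pool.Agent.TH438.LL
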