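import Pool.Agent.TH438.LL.J

/-!
# Lower bound: the spine
-/

set_option autoImplicit false

namespace Pool.Agent.TH438.LL

open SimpleGraph

section
variable {n : ℕ} {T : SimpleGraph (Fin n)}

lemma long_path (hT : T.IsTree)
    (hdeg : ∀ v, (T.neighborSet v).ncard = 1 ∨ (T.neighborSet v).ncard = 3) (l : ℕ)
    (hn : 4 ^ l < n) : ∃ (u v : Fin n) (p : T.Walk u v), p.IsPath ∧ l < p.length := by
  classical
  have hn0 : 0 < n := by
    have : 0 < 4 ^ l := by positivity
    omega
  let v0 : Fin n := ⟨0, hn0⟩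
  have h1 := ball hdeg v0 l
  have h2 : ({u | ∃ p : T.Walk v0 u, p.length ≤ l}).ncard < (Set.univ : Set (Fin n)).ncard := by
    rw [Set.ncard_univ, Nat.card_eq_fintype_card, Fintype.card_fin]
    omega
  obtain ⟨u, -, hu⟩ := Set.exists_mem_notMem_of_ncard_lt_ncard h2
  obtain ⟨p⟩ := hT.1.preconnected v0 u
  refine ⟨v0, u, p.bypass, p.bypass_isPath, ?_⟩
  by_contra hc
  exact hu ⟨p.bypass, by omega⟩

theorem tree_part (hT : T.IsTree)
    (hdeg : ∀ v, (T.neighborSet v).ncard = 1 ∨ (T.neighborSet v).ncard = 3) (G l : ℕ)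
    (hn : 4 ^ (l + 2) < n) :
    (∀ g, 1 ≤ g → g ≤ G → 2 * g ∈ Ls T) ∨
      ∃ f : ℕ → ℕ, (∀ i, f i ≤ G) ∧ ∀ i j, i < j → j < l → f i + f j + (j - i) ∈ Ls T := by
  classical
  obtain ⟨u, v, p, hp, hl⟩ := long_path hT hdeg _ hn
  set V : ℕ → Fin n := fun i => p.getVert i with hV
  have hadj : ∀ i, i < p.length → T.Adj (V i) (V (i + 1)) := fun i hi => p.adj_getVert_succ hi
  have hne : ∀ i, i + 2 ≤ p.length → V i ≠ V (i + 2) := by
    intro i hi h
    have := hp.getVert_injOn (by simp only [Set.mem_setOf_eq]; omega)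
      (by simp only [Set.mem_setOf_eq]; omega) h
    omega
  have hthird : ∀ i, i + 2 ≤ p.length → ∃ w, T.Adj (V (i + 1)) w ∧ w ≠ V i ∧ w ≠ V (i + 2) := by
    intro i hi
    have a1 : V i ∈ T.neighborSet (V (i + 1)) := (hadj i (by omega)).symm
    have a2 : V (i + 2) ∈ T.neighborSet (V (i + 1)) := hadj (i + 1) (by omega)
    have h3 : (T.neighborSet (V (i + 1))).ncard = 3 := by
      rcases hdeg (V (i + 1)) with h | h
      · exfalso
        obtain ⟨x, hx⟩ := Set.ncard_eq_one.1 h
        rw [hx] at a1 a2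
        exact hne i hi ((Set.mem_singleton_iff.1 a1).trans (Set.mem_singleton_iff.1 a2).symm)
      · exact h
    have h2 : ({V i, V (i + 2)} : Set (Fin n)).ncard < (T.neighborSet (V (i + 1))).ncard := by
      rw [h3]
      exact lt_of_le_of_lt (Set.ncard_insert_le _ _) (by rw [Set.ncard_singleton]; norm_num)
    obtain ⟨w, hw1, hw2⟩ := Set.exists_mem_notMem_of_ncard_lt_ncard h2
    refine ⟨w, hw1, ?_, ?_⟩
    · rintro rfl
      exact hw2 (by simp)
    · rintro rfl
      exact hw2 (by simp)
  haveI : Nonempty (Fin n) := ⟨u⟩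
  choose! W hW1 hW2 hW3 using hthird
  by_cases hall : ∀ i, i + 2 ≤ p.length → ∃ a ∈ DA T (V (i + 1)) (W i), a ≤ G
  · right
    choose! f hf1 hf2 using hall
    -- directed distances
    have key : ∀ d i, i + d + 3 ≤ p.length →
        f (i + d + 1) + (d + 1) ∈ DA T (V (i + 1)) (V (i + 2)) := by
      intro d
      induction d with
      | zero =>
        intro i hi
        have h1 := hf1 (i + 1) (by omega)
        have h2 := DA_step hT (hadj (i + 1) (by omega)) (hW2 (i + 1) (by omega)) h1
        simpa using h2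
      | succ d ih =>
        intro i hi
        have h1 := ih (i + 1) (by omega)
        have h2 := DA_step hT (hadj (i + 1) (by omega)) (hne (i + 1) (by omega)).symm h1
        have e : f (i + (d + 1) + 1) + (d + 1 + 1) = f (i + 1 + d + 1) + (d + 1) + 1 := by
          have : i + (d + 1) + 1 = i + 1 + d + 1 := by ring
          rw [this]
          ring
        rw [e]
        exact h2
    refine ⟨fun i => if i + 2 ≤ p.length then f i else 0, ?_, ?_⟩
    · intro i
      dsimp only
      split_ifs with h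
      · exact hf2 i h
      · exact Nat.zero_le _
    · intro i j hij hj
      dsimp only
      rw [if_pos (by omega), if_pos (by omega)]
      obtain ⟨d, rfl⟩ : ∃ d, j = i + d + 1 := ⟨j - i - 1, by omega⟩
      have h1 := key d i (by omega)
      have h2 := DA_join hT (hW3 i (by omega)) (hf1 i (by omega)) h1
      have e : f i + f (i + d + 1) + (i + d + 1 - i) = f i + (f (i + d + 1) + (d + 1)) := by
        omega
      rw [e]
      exact h2
  · left
    push Not at hall
    obtain ⟨i, hi, hall⟩ := hall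
    intro g hg1 hg2
    exact tall hT hdeg g hg1 n (V (i + 1)) (W i) (hW1 i hi) (PL_n _ _)
      (fun a ha => by have := hall a ha; omega)

end

end Pool.Agent.TH438.LL
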